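import Pool.Agent.H895.ND.Max
import Pool.Graph.R_pool_sql_team_seeded_1e53cb71.Helper43K9.CI.Inn

/-!
# Inversion of adjunction for log canonicity

If `la ≥ 0` at the interior lattice vectors which satisfy the condition of Rado, and there is one,
then `la ≥ 0` at all interior lattice vectors.
-/

set_option autoImplicit false
set_option linter.unusedVariables false
set_option linter.unusedSectionVars false

namespace Pool.Agent.H895.ND

open Pool.Agent.Helper43K9.NH (phi dot Inn phi_spec phi_eq phi_smul dot_add dot_smul)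
open Pool.Agent.TH165.ACC (pr Cn pr_add pr_zero pr_neg pr_sub pr_smul pr_smul_right Coord coord_pr
  DualVec exists_simplex)
open Pool.Agent.Helper58K9.CI (VJ RadoC ev rv ev_rv pr_add_right pr_sum_right dot_sum exists_min
  rank_min)
open Module

variable {n N r s : ℕ} {ψ : Fin n → ℝ} {S : Fin r → Finset (Fin n → ℤ)}
  {T : Fin s → Finset (Fin n → ℤ)} {b : Fin s → ℝ} {E : Fin N → Fin n → ℤ}

theorem la_add_psi (ψ ℓ : Fin n → ℝ) (S : Fin r → Finset (Fin n → ℤ))
    (T : Fin s → Finset (Fin n → ℤ)) (b : Fin s → ℝ) (u : Fin n → ℤ) :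
    la (fun k => ψ k + ℓ k) S T b u = la ψ S T b u + dot ℓ u := by
  have : dot (fun k => ψ k + ℓ k) u = dot ψ u + dot ℓ u := by
    simp only [dot, ← Finset.sum_add_distrib]
    exact Finset.sum_congr rfl fun i _ => by ring
  rw [la, la, this]
  ring

theorem la_sum_le (hS : ∀ j, (S j).Nonempty) (hT : ∀ k, (T k).Nonempty) (hb : ∀ k, 0 ≤ b k)
    {ι : Type} (J : Finset ι) (u : ι → Fin n → ℤ) :
    la ψ S T b (∑ i ∈ J, u i) ≤ ∑ i ∈ J, la ψ S T b (u i) := by
  classical
  induction J using Finset.induction_on with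
  | empty => rw [Finset.sum_empty, Finset.sum_empty, la_zero hS hT]
  | insert a J ha ih =>
    rw [Finset.sum_insert ha, Finset.sum_insert ha]
    exact (la_add_le hS hT hb _ _).trans (by linarith)

theorem lc_of_rado (hS : ∀ j, (S j).Nonempty) (hT : ∀ k, (T k).Nonempty) (hb : ∀ k, 0 ≤ b k)
    (hpt : ∃ Q : Fin n → ℤ, ∀ i, 0 < pr Q (E i)) (hE : ∀ i, la ψ S T b (E i) ≤ 1)
    {w : Fin n → ℤ} (hw : Inn E w) (hR : RadoC S w)
    (hl : ∀ u, Inn E u → RadoC S u → 0 ≤ la ψ S T b u) :
    ∀ u, Inn E u → 0 ≤ la ψ S T b u := by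
  classical
  intro u0 hu0
  by_contra hneg
  push Not at hneg
  obtain ⟨Q0, hQ0⟩ := hpt
  -- the maximum
  obtain ⟨z, K, hK, hz, hy, hmax⟩ := exists_max (ψ := ψ) (b := b) hS hT hQ0 (InC.of_inn hw)
  have hKr : (0 : ℝ) < K := by exact_mod_cast hK
  have hlz : la ψ S T b z < 0 := by
    obtain ⟨M, hM, hM'⟩ := Pool.Agent.Helper43K9.CI.inn n N E w (-u0) hw
    have h1 := hmax M.toNat u0 (by omega) (InC.of_inn hu0) (by
      rw [Int.toNat_of_nonneg hM.le, sub_eq_add_neg]
      exact InC.of_inn (hM' M le_rfl))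
    have h2 : (0 : ℝ) < (M.toNat : ℝ) := by
      have : 0 < M.toNat := by omega
      exact_mod_cast this
    by_contra h3
    push Not at h3
    nlinarith
  set y : Fin n → ℤ := (K : ℤ) • w - z with hydef
  have hwzy : ∀ k, (K : ℝ) * (w k : ℝ) = (z k : ℝ) + (y k : ℝ) := by
    intro k
    have : y k = (K : ℤ) * w k - z k := rfl
    rw [this]
    push_cast
    ring
  obtain ⟨q, a, c, hc, hco, D, hD⟩ := exists_simplex hy
  have hliE : LinearIndependent ℝ (fun (i : Fin q) (l : Fin n) => (E (a i) l : ℝ)) := by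
    rw [Fintype.linearIndependent_iff]
    intro g hg i
    obtain ⟨Q, hQ⟩ := hD.2 i
    have h1 : ∀ k, ∑ j, g j * (E (a j) k : ℝ) = ((0 : Fin n → ℤ) k : ℝ) := by
      intro k
      have := congrFun hg k
      rw [Finset.sum_apply] at this
      simpa using this
    have h2 := pr_comb h1 Q
    rw [Finset.sum_congr rfl fun j _ => by rw [hQ j]] at h2
    have h3 : pr Q (0 : Fin n → ℤ) = 0 := by simp [pr]
    rw [h3] at h2
    simp only [Int.cast_ite, Int.cast_zero, mul_ite, mul_zero, Finset.sum_ite_eq',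
      Finset.mem_univ, if_true] at h2
    have hD0 : ((D : ℤ) : ℝ) ≠ 0 := by exact_mod_cast hD.1.ne'
    exact (mul_eq_zero.1 h2.symm).resolve_right hD0
  -- `z` does not lie in the span
  have hzspan : (fun l => (z l : ℝ)) ∉ Submodule.span ℝ
      (Set.range fun (i : Fin q) (l : Fin n) => (E (a i) l : ℝ)) := by
    intro hmem
    obtain ⟨γ, hγ⟩ := (Submodule.mem_span_range_iff_exists_fun ℝ).1 hmem
    have hγ' : ∀ l, ∑ i, γ i * (E (a i) l : ℝ) = (z l : ℝ) := by
      intro l
      have := congrFun hγ l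
      rw [Finset.sum_apply] at this
      simpa using this
    obtain ⟨M, hM⟩ : ∃ M : ℕ, ∀ i, γ i / c i ≤ M := by
      obtain ⟨M, hM⟩ := exists_nat_gt (∑ i, |γ i / c i|)
      refine ⟨M, fun i => (le_abs_self _).trans ((Finset.single_le_sum (f := fun i => |γ i / c i|)
        (fun j _ => abs_nonneg _) (Finset.mem_univ i)).trans hM.le)⟩
    have h1 := hmax ((M + 1) * K) (((M + 2 : ℕ) : ℤ) • z) (by positivity) (fun m hm => by
        rw [pr_smul_right]
        exact mul_nonneg (by positivity) (hz m hm))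
      (inC_comb (c := fun i => (M + 1) * c i - γ i) (ρ := fun i => E (a i)) (fun k => by
        have h2 : ∀ i ∈ Finset.univ, ((M + 1 : ℝ) * c i - γ i) * (E (a i) k : ℝ) =
            (M + 1 : ℝ) * (c i * (E (a i) k : ℝ)) - γ i * (E (a i) k : ℝ) := fun i _ => by ring
        rw [Finset.sum_congr rfl h2, Finset.sum_sub_distrib, ← Finset.mul_sum, hco k, hγ' k]
        simp only [Pi.sub_apply, Pi.smul_apply, smul_eq_mul]
        push_cast
        have := hwzy k
        linear_combination (-(M + 1 : ℝ)) * this) (fun i => by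
        have h2 := hM i
        rw [div_le_iff₀ (hc i)] at h2
        have := hc i
        nlinarith) fun i _ => inC_edge E (a i))
    rw [la_smul hS hT (by positivity)] at h1
    push_cast at h1
    nlinarith
  -- the cone spanned by `z` and the `E (a i)`
  let E' : Fin (q + 1) → Fin n → ℤ := Fin.cons z fun i => E (a i)
  have hE'0 : E' 0 = z := rfl
  have hE's : ∀ i : Fin q, E' i.succ = E (a i) := fun i => rfl
  have hli' : LinearIndependent ℝ (fun (i : Fin (q + 1)) (l : Fin n) => (E' i l : ℝ)) := by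
    have h1 : (fun (i : Fin (q + 1)) (l : Fin n) => (E' i l : ℝ)) =
        Fin.cons (fun l => (z l : ℝ)) fun (i : Fin q) (l : Fin n) => (E (a i) l : ℝ) := by
      funext i
      refine Fin.cases ?_ (fun i => ?_) i
      · rfl
      · rfl
    rw [h1, linearIndependent_finCons]
    exact ⟨hliE, hzspan⟩
  obtain ⟨D', hD'⟩ := exists_dual_real hli'
  obtain ⟨Q, hQ⟩ := hD'.2 0
  have hD'0 : (0 : ℝ) < D' := by exact_mod_cast hD'.1
  let ℓ : Fin n → ℝ := fun k => (-la ψ S T b z / D') * (Q k : ℝ)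
  have hℓ : ∀ u, dot ℓ u = (-la ψ S T b z / D') * (pr Q u : ℝ) := by
    intro u
    rw [pr_real, dot, Finset.mul_sum]
    exact Finset.sum_congr rfl fun k _ => by simp only [ℓ]; ring
  have hℓz : dot ℓ z = -la ψ S T b z := by
    have := hQ 0
    rw [if_pos rfl, hE'0] at this
    rw [hℓ, this]
    field_simp
  have hℓE : ∀ i, dot ℓ (E (a i)) = 0 := by
    intro i
    have := hQ i.succ
    rw [if_neg (Fin.succ_ne_zero i), hE's] at this
    rw [hℓ, this]
    simp
  have hdot : ∀ {p : ℕ} {ρ : Fin p → Fin n → ℤ} {c : Fin p → ℝ} {u : Fin n → ℤ} (ψ : Fin n → ℝ),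
      Coord ρ c u → dot ψ u = ∑ i, c i * dot ψ (ρ i) := fun ψ h =>
    Pool.Agent.Helper43K9.NH.CombL.dot_coord ψ h
  have hℓnn : ∀ u, InC E' u → 0 ≤ dot ℓ u := by
    intro u hu
    obtain ⟨D1, c1, hD1, hc1⟩ := natrep hu
    have h1 : Coord E' (fun i => (c1 i : ℝ)) ((D1 : ℤ) • u) := by
      intro k
      rw [hc1 k, Pi.smul_apply, smul_eq_mul]
      push_cast
      rfl
    have h2 := hdot ℓ h1
    rw [dot_smul, Fin.sum_univ_succ] at h2
    simp only [hE's, hℓE, mul_zero, Finset.sum_const_zero, add_zero, hE'0, hℓz] at h2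
    have h3 : (0 : ℝ) < D1 := by exact_mod_cast hD1
    have h4 : (0 : ℝ) ≤ (c1 0 : ℝ) * -la ψ S T b z := mul_nonneg (Nat.cast_nonneg _) (by linarith)
    push_cast at h2
    by_contra h5
    push Not at h5
    nlinarith
  let ψ' : Fin n → ℝ := fun k => ψ k + ℓ k
  have hψ' : ∀ u, la ψ' S T b u = la ψ S T b u + dot ℓ u := la_add_psi ψ ℓ S T b
  -- nonnegativity
  have hla' : ∀ u, InC E' u → 0 ≤ la ψ' S T b u := by
    intro u hu
    obtain ⟨D1, c1, hD1, hc1⟩ := natrep hu
    have hD1r : (0 : ℝ) < D1 := by exact_mod_cast hD1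
    have h1 : Coord E' (fun i => (c1 i : ℝ)) ((D1 : ℤ) • u) := by
      intro k
      rw [hc1 k, Pi.smul_apply, smul_eq_mul]
      push_cast
      rfl
    obtain ⟨M, hM0, hM⟩ : ∃ M : ℕ, c1 0 ≤ M ∧ ∀ i : Fin q, (c1 i.succ : ℝ) / c i ≤ M := by
      obtain ⟨M, hM⟩ := exists_nat_gt (∑ i : Fin q, |(c1 i.succ : ℝ) / c i|)
      refine ⟨M + c1 0, by omega, fun i => ?_⟩
      push_cast
      have h2 := (le_abs_self _).trans ((Finset.single_le_sum
        (f := fun i : Fin q => |(c1 i.succ : ℝ) / c i|)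
        (fun j _ => abs_nonneg _) (Finset.mem_univ i)).trans hM.le)
      have h3 : (0 : ℝ) ≤ (c1 0 : ℝ) := Nat.cast_nonneg _
      linarith
    have hzu : ∀ k, (D1 : ℝ) * (u k : ℝ) = (c1 0 : ℝ) * (z k : ℝ) +
        ∑ i : Fin q, (c1 i.succ : ℝ) * (E (a i) k : ℝ) := by
      intro k
      have h2 := hc1 k
      rw [Fin.sum_univ_succ] at h2
      exact h2.symm
    have h2 := hmax ((M + 1) * K) ((D1 : ℤ) • u + ((M + 1 - c1 0 : ℕ) : ℤ) • z) (by positivity)
      (fun m hm => by
        rw [pr_add_right, pr_smul_right, pr_smul_right]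
        refine add_nonneg (mul_nonneg (by positivity) ?_) (mul_nonneg (by positivity) (hz m hm))
        refine hu m fun i => ?_
        refine Fin.cases ?_ (fun i => ?_) i
        · exact hz m hm
        · exact hm (a i))
      (inC_comb (c := fun i => (M + 1) * c i - c1 i.succ) (ρ := fun i => E (a i)) (fun k => by
        have h2 : ∀ i ∈ Finset.univ, ((M + 1 : ℝ) * c i - c1 i.succ) * (E (a i) k : ℝ) =
            (M + 1 : ℝ) * (c i * (E (a i) k : ℝ)) - (c1 i.succ : ℝ) * (E (a i) k : ℝ) :=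
          fun i _ => by ring
        rw [Finset.sum_congr rfl h2, Finset.sum_sub_distrib, ← Finset.mul_sum, hco k]
        simp only [Pi.sub_apply, Pi.smul_apply, Pi.add_apply, smul_eq_mul]
        have h3 : ((M + 1 - c1 0 : ℕ) : ℝ) = (M : ℝ) + 1 - c1 0 := by
          rw [Nat.cast_sub (by omega)]
          push_cast
          ring
        push_cast
        rw [h3]
        have h4 := hwzy k
        have h5 := hzu k
        linear_combination (-(M + 1 : ℝ)) * h4 + h5) (fun i => by
        have h2 := hM i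
        rw [div_le_iff₀ (hc i)] at h2
        have := hc i
        nlinarith) fun i _ => inC_edge E (a i))
    have h3 := la_add_le (ψ := ψ) hS hT hb ((D1 : ℤ) • u) (((M + 1 - c1 0 : ℕ) : ℤ) • z)
    rw [la_smul hS hT (k := ((M + 1 - c1 0 : ℕ) : ℤ)) (by positivity)] at h3
    have h4 : ((M + 1 - c1 0 : ℕ) : ℝ) = (M : ℝ) + 1 - c1 0 := by
      rw [Nat.cast_sub (by omega)]
      push_cast
      ring
    push_cast at h2 h3
    rw [h4] at h3
    have h5 : -la ψ S T b ((D1 : ℤ) • u + ((M + 1 - c1 0 : ℕ) : ℤ) • z) ≤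
        -la ψ S T b z * (M + 1) := by
      have h6 : -la ψ S T b ((D1 : ℤ) • u + ((M + 1 - c1 0 : ℕ) : ℤ) • z) * K ≤
          (-la ψ S T b z * (M + 1)) * K := by linarith
      exact le_of_mul_le_mul_right h6 hKr
    have h6 : 0 ≤ la ψ' S T b ((D1 : ℤ) • u) := by
      rw [hψ', hdot ℓ h1, Fin.sum_univ_succ]
      simp only [hE's, hℓE, mul_zero, Finset.sum_const_zero, add_zero, hE'0, hℓz]
      linarith
    rw [la_smul hS hT (by positivity)] at h6
    push_cast at h6
    exact nonneg_of_mul_nonneg_right h6 hD1r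
  have hwE' : InC E' w := by
    refine inC_comb (c := (Fin.cons (1 / (K : ℝ)) fun i => c i / K : Fin (q + 1) → ℝ)) (ρ := E')
      (fun k => ?_) (fun i => ?_) fun i _ => inC_edge E' i
    · rw [Fin.sum_univ_succ]
      simp only [Fin.cons_zero, Fin.cons_succ, hE's, hE'0]
      have h1 := hco k
      have h2 := hwzy k
      have h3 : ∑ i, c i / K * (E (a i) k : ℝ) = (y k : ℝ) / K := by
        rw [← h1, Finset.sum_div]
        exact Finset.sum_congr rfl fun i _ => by ring
      rw [h3]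
      field_simp
      linarith
    · refine Fin.cases ?_ (fun i => ?_) i
      · rw [Fin.cons_zero]; positivity
      · rw [Fin.cons_succ]; exact div_nonneg (hc i).le hKr.le
  obtain ⟨p, ρ, cw, I, hcw, hcow, hliρ, hIE, hIA, hP⟩ :=
    exists_cone (ψ := ψ') (b := b) (E := E') hS hT hla' hwE'
  have hCC : ∀ u, InC E' u → InC E u := by
    intro u hu m hm
    refine hu m fun i => ?_
    refine Fin.cases ?_ (fun i => ?_) i
    · exact hz m hm
    · exact hm (a i)
  have hρC' : ∀ i, InC E' (ρ i) := by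
    intro i
    by_cases hi : i ∈ I
    · obtain ⟨e, he⟩ := hIE i hi
      rw [he]
      exact inC_edge E' e
    · exact (hIA i hi).2
  have hlz' : la ψ' S T b z = 0 := by rw [hψ', hℓz]; ring
  have hz0 : z ≠ 0 := by
    intro h
    rw [h, la_zero hS hT] at hlz
    exact lt_irrefl _ hlz
  have hρI : ∀ i ∈ I, ∃ e, ρ i = E (a e) := by
    intro i hi
    obtain ⟨e, he⟩ := hIE i hi
    revert he
    refine Fin.cases ?_ (fun e => ?_) e
    · intro he
      exfalso
      have h1 := hP z (fun j => if j = i then 1 else 0) (fun j => by split_ifs <;> norm_num)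
        (fun j hj => if_neg fun (h : j = i) => hj (by rw [h]; exact hi)) (fun l => by
          rw [Finset.sum_eq_single i]
          · rw [if_pos rfl, one_mul, he, hE'0]
          · intro j _ hj
            rw [if_neg hj, zero_mul]
          · intro h; exact absurd (Finset.mem_univ _) h) hz0
      rw [hlz'] at h1
      exact lt_irrefl _ h1
    · intro he
      exact ⟨e, he⟩
  have hρ1 : ∀ i, la ψ' S T b (ρ i) ≤ 1 := by
    intro i
    by_cases hi : i ∈ I
    · obtain ⟨e, he⟩ := hρI i hi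
      rw [he, hψ', hℓE, add_zero]
      exact hE _
    · rw [(hIA i hi).1]
      exact zero_le_one
  -- a log canonical place
  obtain ⟨i1, hi1, hℓ1⟩ : ∃ i1, i1 ∉ I ∧ 0 < dot ℓ (ρ i1) := by
    by_contra hcon
    push Not at hcon
    have h1 : dot ℓ w ≤ 0 := by
      rw [hdot ℓ hcow]
      refine Finset.sum_nonpos fun i _ => mul_nonpos_of_nonneg_of_nonpos (hcw i).le ?_
      by_cases hi : i ∈ I
      · obtain ⟨e, he⟩ := hρI i hi
        rw [he, hℓE]
      · exact hcon i hi
    have h2 : (K : ℝ) * dot ℓ w = dot ℓ z + dot ℓ y := by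
      simp only [dot, Finset.mul_sum, ← Finset.sum_add_distrib]
      refine Finset.sum_congr rfl fun k _ => ?_
      have := hwzy k
      linear_combination (ℓ k) * this
    have h3 : dot ℓ y = 0 := by
      rw [hdot (ρ := fun i => E (a i)) (c := c) ℓ hco]
      exact Finset.sum_eq_zero fun i _ => by rw [hℓE, mul_zero]
    rw [h3, hℓz, add_zero] at h2
    nlinarith
  obtain ⟨M, hM⟩ := exists_nat_gt ((p : ℝ) / dot ℓ (ρ i1))
  rw [div_lt_iff₀ hℓ1] at hM
  let u1 : Fin n → ℤ := (M : ℤ) • ρ i1 + ∑ i, ρ i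
  have hu1 : Coord ρ (fun i => 1 + if i = i1 then (M : ℝ) else 0) u1 := by
    intro k
    simp only [u1, add_mul, one_mul, Finset.sum_add_distrib, ite_mul, zero_mul,
      Finset.sum_ite_eq' Finset.univ, Finset.mem_univ, if_true, Pi.add_apply, Pi.smul_apply,
      smul_eq_mul, Finset.sum_apply]
    push_cast
    ring
  have hd1 : ∀ i : Fin p, (0 : ℝ) < 1 + if i = i1 then (M : ℝ) else 0 := by
    intro i
    split_ifs <;> positivity
  obtain ⟨u, d, hd, hu, hRu, hle⟩ := chain (ψ := ψ') hS hT hb hla' hcw hcow hliρ hρC' hρ1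
    (fun i hi => (hIA i hi).1) hP hR hd1 hu1
  have hInn : Inn E u := inn_of_coord hw hcw hcow (fun i => hCC _ (hρC' i))
    (fun i => (hd1 i).trans_le (hd i)) hu
  have h1 := hl u hInn hRu
  have h2 : la ψ' S T b u1 ≤ p := by
    refine (la_add_le hS hT hb _ _).trans ?_
    rw [la_smul hS hT (by positivity), (hIA i1 hi1).1, mul_zero, zero_add]
    refine (la_sum_le hS hT hb _ _).trans ?_
    calc ∑ i, la ψ' S T b (ρ i) ≤ ∑ i : Fin p, (1 : ℝ) := Finset.sum_le_sum fun i _ => hρ1 i
      _ = p := by simp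
  have h3 : (M : ℝ) * dot ℓ (ρ i1) ≤ dot ℓ u := by
    rw [hdot ℓ hu]
    have h4 : d i1 * dot ℓ (ρ i1) ≤ ∑ i, d i * dot ℓ (ρ i) :=
      Finset.single_le_sum (f := fun i => d i * dot ℓ (ρ i)) (fun i _ => mul_nonneg
        ((hd1 i).le.trans (hd i)) (hℓnn _ (hρC' i))) (Finset.mem_univ i1)
    have h5 := hd i1
    rw [if_pos rfl] at h5
    nlinarith
  rw [hψ'] at hle
  linarith

end Pool.Agent.H895.ND
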