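import Mathlib
import Pool.Graph.R_pool_sql_team_seeded_1e53cb71.Helper43K9.CI.Idx

/-!
# Completion of independent vectors by unit vectors
-/

set_option autoImplicit false
set_option linter.unusedVariables false
set_option linter.unusedSectionVars false

namespace Pool.Agent.H895.ND

/-- the column `t`: one of the `γ k` or a unit vector -/
def tc {n : ℕ} {κ R : Type} [Zero R] [One R] (γ : κ → Fin n → R) (t : κ ⊕ Fin n) (l : Fin n) : R :=
  Sum.elim (fun k => γ k l) (fun m => if l = m then 1 else 0) t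

/-- the matrix with the columns `t i` and `a j` -/
def cmm {d r : ℕ} {κ R : Type} [Zero R] [One R] (t : Fin d → κ ⊕ Fin (d + r))
    (γ : κ → Fin (d + r) → R) (a : Fin r → Fin (d + r) → R) :
    Matrix (Fin (d + r)) (Fin (d + r)) R :=
  Matrix.of fun l i => Fin.addCases (motive := fun _ => R) (fun i => tc γ (t i) l)
    (fun j => a j l) i

theorem cmm_left {d r : ℕ} {κ R : Type} [Zero R] [One R] (t : Fin d → κ ⊕ Fin (d + r))
    (γ : κ → Fin (d + r) → R) (a : Fin r → Fin (d + r) → R) (l : Fin (d + r)) (i : Fin d) :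
    cmm t γ a l (Fin.castAdd r i) = tc γ (t i) l := by
  simp [cmm]

theorem cmm_right {d r : ℕ} {κ R : Type} [Zero R] [One R] (t : Fin d → κ ⊕ Fin (d + r))
    (γ : κ → Fin (d + r) → R) (a : Fin r → Fin (d + r) → R) (l : Fin (d + r)) (j : Fin r) :
    cmm t γ a l (Fin.natAdd d j) = a j l := by
  simp [cmm]

theorem exists_cols {d r : ℕ} {κ : Type} [Fintype κ] [DecidableEq κ]
    (a : Fin r → Fin (d + r) → ℂ) (γ : κ → Fin (d + r) → ℂ)
    (h : LinearIndependent ℂ (Sum.elim a γ)) :
    ∃ (C : Type) (_ : Fintype C) (ε : Fin d ≃ κ ⊕ C) (c : C → Fin (d + r)),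
      (cmm (fun i => Sum.map id c (ε i)) γ a).det ≠ 0 := by
  classical
  obtain ⟨σ, hσ, hdet⟩ := Pool.Agent.TH165.ACC.exists_minor (Matrix.of (Sum.elim a γ)) h
  have hcard : Fintype.card {l // l ∉ Set.range σ} + (r + Fintype.card κ) = d + r := by
    rw [Fintype.card_subtype_compl, Fintype.card_fin]
    have h1 : Fintype.card {l // l ∈ Set.range σ} = r + Fintype.card κ := by
      have := Set.card_range_of_injective hσ
      rw [Fintype.card_sum, Fintype.card_fin] at this
      convert! this
    have h2 : Fintype.card {l // l ∈ Set.range σ} ≤ Fintype.card (Fin (d + r)) :=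
      Fintype.card_subtype_le _
    rw [Fintype.card_fin] at h2
    omega
  have hcard' : Fintype.card (κ ⊕ {l // l ∉ Set.range σ}) = d := by
    rw [Fintype.card_sum]
    omega
  let ε : Fin d ≃ κ ⊕ {l // l ∉ Set.range σ} := (Fintype.equivFinOfCardEq hcard').symm
  refine ⟨{l // l ∉ Set.range σ}, inferInstance, ε, Subtype.val, ?_⟩
  intro h0
  obtain ⟨v, hv, hv0⟩ := Matrix.exists_mulVec_eq_zero_iff.2 h0
  have hrow : ∀ l, (∑ k : κ, γ k l * v (Fin.castAdd r (ε.symm (Sum.inl k)))) +
      (∑ x : {l // l ∉ Set.range σ}, (if l = x.1 then 1 else 0) *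
        v (Fin.castAdd r (ε.symm (Sum.inr x)))) +
      ∑ j, a j l * v (Fin.natAdd d j) = 0 := by
    intro l
    have h1 := congrFun hv0 l
    rw [Matrix.mulVec, dotProduct, Fin.sum_univ_add] at h1
    simp only [cmm_left, cmm_right, Pi.zero_apply] at h1
    refine Eq.trans ?_ h1
    congr 1
    rw [← ε.symm.sum_comp, Fintype.sum_sum_type]
    simp only [Equiv.apply_symm_apply, Sum.map_inl, Sum.map_inr, tc, Sum.elim_inl, Sum.elim_inr,
      id_eq]
  have hb : (Sum.elim (fun j => v (Fin.natAdd d j))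
      (fun k => v (Fin.castAdd r (ε.symm (Sum.inl k)))) : Fin r ⊕ κ → ℂ) = 0 := by
    by_contra hne
    apply hdet
    rw [← Matrix.exists_mulVec_eq_zero_iff]
    refine ⟨_, hne, funext fun x => ?_⟩
    have h1 := hrow (σ x)
    have h2 : ∑ y : {l // l ∉ Set.range σ}, (if σ x = y.1 then 1 else 0) *
        v (Fin.castAdd r (ε.symm (Sum.inr y))) = 0 := Finset.sum_eq_zero fun y _ => by
      rw [if_neg, zero_mul]
      intro h3
      exact y.2 ⟨x, h3⟩
    rw [h2, add_zero] at h1
    rw [Matrix.mulVec, dotProduct, Fintype.sum_sum_type]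
    simp only [Matrix.of_apply, Sum.elim_inl, Sum.elim_inr, Pi.zero_apply]
    refine Eq.trans ?_ h1
    ring
  have hb1 : ∀ j, v (Fin.natAdd d j) = 0 := fun j => congrFun hb (Sum.inl j)
  have hb2 : ∀ k, v (Fin.castAdd r (ε.symm (Sum.inl k))) = 0 := fun k => congrFun hb (Sum.inr k)
  have hb3 : ∀ y, v (Fin.castAdd r (ε.symm (Sum.inr y))) = 0 := by
    intro y
    have h1 := hrow y.1
    simp only [hb1, hb2, mul_zero, Finset.sum_const_zero, zero_add, add_zero] at h1
    rw [Finset.sum_eq_single y] at h1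
    · simpa using h1
    · intro z _ hz
      rw [if_neg, zero_mul]
      intro h3
      exact hz (Subtype.ext h3.symm)
    · intro h3
      exact absurd (Finset.mem_univ _) h3
  apply hv
  funext l
  refine Fin.addCases (fun i => ?_) (fun j => hb1 j) l
  obtain ⟨x, rfl⟩ := ε.symm.surjective i
  rcases x with x | x
  · exact hb2 x
  · exact hb3 x

end Pool.Agent.H895.ND
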