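import Pool.Agent.H895.ND.Cone

/-!
# The least value on a simplicial cone is a minimal log discrepancy of a monomial pair
-/

set_option autoImplicit false
set_option linter.unusedVariables false
set_option linter.unusedSectionVars false

namespace Pool.Agent.H895.ND

open Pool.Agent.Helper43K9.NH (phi dot Inn phi_spec phi_eq phi_smul dot_add dot_smul)
open Pool.Agent.Helper43K9.NH.CombL
open Pool.Agent.TH165.ACC (pr Cn pr_add pr_zero pr_neg pr_sub pr_smul pr_smul_right Coord coord_pr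
  DualVec exists_simplex exists_dual GE GE_finite coord_of_mem mldsR ordAlong logDisc)
open Module

variable {n N r s p : ℕ}

theorem exists_dual_real {A : Fin p → Fin n → ℤ}
    (h : LinearIndependent ℝ fun (i : Fin p) (k : Fin n) => (A i k : ℝ)) :
    ∃ D : ℤ, DualVec A D := by
  apply exists_dual
  rw [Fintype.linearIndependent_iff] at h ⊢
  intro g hg i
  have h1 : ∑ i, ((g i : ℚ) : ℝ) • (fun k : Fin n => (A i k : ℝ)) = 0 := by
    funext k
    have h2 := congrFun hg k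
    rw [Finset.sum_apply] at h2
    have h3 : ((∑ i, g i • (A i k : ℚ) : ℚ) : ℝ) = 0 := by
      have : (∑ i, g i • (A i k : ℚ) : ℚ) = 0 := h2
      rw [this]; simp
    rw [Finset.sum_apply]
    push_cast [smul_eq_mul] at h3
    simpa [smul_eq_mul] using h3
  have h2 := h _ h1 i
  exact_mod_cast h2

theorem mem_mldsR {ψ : Fin n → ℝ} {S : Fin r → Finset (Fin n → ℤ)}
    {T : Fin s → Finset (Fin n → ℤ)} {b : Fin s → ℝ} (hS : ∀ j, (S j).Nonempty)
    (hT : ∀ k, (T k).Nonempty) (hb : ∀ k, 0 ≤ b k) {Γ : Set ℝ} (h1 : (1 : ℝ) ∈ Γ)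
    (hbΓ : ∀ k, b k ≠ 0 → b k ∈ Γ) {A : Fin p → Fin n → ℤ}
    (hli : LinearIndependent ℝ fun (i : Fin p) (k : Fin n) => (A i k : ℝ))
    (hA1 : ∀ i, la ψ S T b (A i) ≤ 1) (hAΓ : ∀ i, la ψ S T b (A i) ≠ 1 → 1 - la ψ S T b (A i) ∈ Γ)
    {w0 : Fin p → ℝ} {u0 : Fin n → ℤ} (hw0 : ∀ i, 0 < w0 i) (hc0 : Coord A w0 u0)
    (hmin : ∀ (u : Fin n → ℤ) (d : Fin p → ℝ), (∀ i, 0 < d i) → Coord A d u →
      la ψ S T b u0 ≤ la ψ S T b u) :
    ∃ q, la ψ S T b u0 ∈ mldsR p q Γ := by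
  classical
  obtain ⟨D, hD⟩ := exists_dual_real hli
  let β : Fin p → ℝ := fun i => 1 - la ψ S T b (A i)
  have hβ : ∀ i, 0 ≤ β i := fun i => by have := hA1 i; simp only [β]; linarith
  let κ : Type := Fin r ⊕ Fin s
  let U : κ → Finset (Fin n → ℤ) := Sum.elim S T
  let cU : κ → ℝ := Sum.elim (fun _ => 1) b
  have hU : ∀ x, (U x).Nonempty := by rintro (x | x); exacts [hS x, hT x]
  have hcU : ∀ x, 0 ≤ cU x := by rintro (x | x); exacts [zero_le_one, hb x]
  have hcUΓ : ∀ x, cU x ≠ 0 → cU x ∈ Γ := by rintro (x | x) hx; exacts [h1, hbΓ x hx]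
  have hla : ∀ u, la ψ S T b u = dot ψ u - ∑ x, cU x * (phi (U x) u : ℝ) := by
    intro u
    rw [Fintype.sum_sum_type, la]
    simp only [cU, U, Sum.elim_inl, Sum.elim_inr, one_mul]
    ring
  let ι : Type := {i : Fin p // β i ≠ 0} ⊕ {x : κ // cU x ≠ 0 ∧ (0 : Fin p → ℕ) ∉ SF (U x) A}
  let Si : ι → Set (Fin p → ℕ) :=
    Sum.elim (fun i => {(Pi.single i.1 1 : Fin p → ℕ)}) fun x => SF (U x.1) A
  let ci : ι → ℝ := Sum.elim (fun i => β i.1) fun x => cU x.1
  let φ : Fin (Fintype.card ι) ≃ ι := (Fintype.equivFin _).symm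
  -- the log discrepancies
  have hkey : ∀ (w : Fin p → ℝ) (u : Fin n → ℤ), (∀ i, 0 ≤ w i) → Coord A w u →
      logDisc (fun j => Si (φ j)) (fun j => ci (φ j)) w = la ψ S T b u := by
    intro w u hw hc
    have e1 : ∑ j, ci (φ j) * ordAlong (Si (φ j)) w = ∑ i, β i * w i +
        ∑ x, cU x * ((phi (U x) u : ℝ) - ∑ i, w i * (phi (U x) (A i) : ℝ)) := by
      rw [φ.sum_comp fun x => ci x * ordAlong (Si x) w, Fintype.sum_sum_type]
      congr 1
      · have h3 : ∑ i : {i : Fin p // β i ≠ 0}, ci (Sum.inl i) * ordAlong (Si (Sum.inl i)) w =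
            ∑ i : {i : Fin p // β i ≠ 0}, β i.1 * w i.1 :=
          Finset.sum_congr rfl fun i _ => by
            change β i.1 * ordAlong {(Pi.single i.1 1 : Fin p → ℕ)} w = _
            rw [Pool.Agent.TH165.ACC.ordAlong_single]
        rw [h3, ← Finset.sum_subtype (Finset.univ.filter fun i => β i ≠ 0) (by simp)
          fun i => β i * w i]
        refine Finset.sum_filter_of_ne fun i _ h4 h5 => h4 ?_
        rw [h5, zero_mul]
      · have h3 : ∑ x : {x : κ // cU x ≠ 0 ∧ (0 : Fin p → ℕ) ∉ SF (U x) A},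
            ci (Sum.inr x) * ordAlong (Si (Sum.inr x)) w =
            ∑ x : {x : κ // cU x ≠ 0 ∧ (0 : Fin p → ℕ) ∉ SF (U x) A},
              cU x.1 * ((phi (U x.1) u : ℝ) - ∑ i, w i * (phi (U x.1) (A i) : ℝ)) :=
          Finset.sum_congr rfl fun x _ => by
            change cU x.1 * ordAlong (SF (U x.1) A) w = _
            rw [ordAlong_SF (hU x.1) hc]
        rw [h3, ← Finset.sum_subtype (Finset.univ.filter fun x : κ => cU x ≠ 0 ∧
          (0 : Fin p → ℕ) ∉ SF (U x) A) (by simp)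
          fun x => cU x * ((phi (U x) u : ℝ) - ∑ i, w i * (phi (U x) (A i) : ℝ))]
        refine Finset.sum_filter_of_ne fun x _ h4 => ⟨left_ne_zero_of_mul h4, fun h5 => h4 ?_⟩
        rw [← ordAlong_SF (hU x) hc, Pool.Agent.TH165.ACC.ordAlong_of_zero h5 hw, mul_zero]
    have e2 : dot ψ u = ∑ i, w i * (1 - β i + ∑ x, cU x * (phi (U x) (A i) : ℝ)) := by
      rw [dot_coord ψ hc]
      refine Finset.sum_congr rfl fun i _ => ?_
      congr 1
      have := hla (A i)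
      simp only [β]
      linarith
    rw [logDisc, e1, hla, e2]
    have e3 : ∑ i, w i * (1 - β i + ∑ x, cU x * (phi (U x) (A i) : ℝ)) =
        ∑ i, w i - ∑ i, β i * w i + ∑ x, cU x * ∑ i, w i * (phi (U x) (A i) : ℝ) := by
      have e4 : ∑ x, cU x * ∑ i, w i * (phi (U x) (A i) : ℝ) =
          ∑ i, w i * ∑ x, cU x * (phi (U x) (A i) : ℝ) := by
        simp only [Finset.mul_sum]
        rw [Finset.sum_comm]
        exact Finset.sum_congr rfl fun i _ => Finset.sum_congr rfl fun x _ => by ring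
      rw [e4, ← Finset.sum_sub_distrib, ← Finset.sum_add_distrib]
      exact Finset.sum_congr rfl fun i _ => by ring
    rw [e3]
    simp only [mul_sub, Finset.sum_sub_distrib]
    ring
  refine ⟨Fintype.card ι, GE A, fun j => Si (φ j), fun j => ci (φ j), GE_finite hD, ?_,
    IsLeast.isGLB ⟨?_, ?_⟩⟩
  · intro j
    change (Si (φ j)).Nonempty ∧ 0 ∉ Si (φ j) ∧ ci (φ j) ∈ Γ ∧ 0 < ci (φ j)
    generalize φ j = x
    rcases x with ⟨i, hi⟩ | ⟨x, hx0, hx⟩
    · refine ⟨⟨_, rfl⟩, ?_, ?_, lt_of_le_of_ne (hβ _) (Ne.symm hi)⟩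
      · intro h
        have h3 := congrFun (Set.mem_singleton_iff.1 h) i
        simp at h3
      · refine hAΓ i fun h3 => hi ?_
        simp only [β]
        linarith
    · refine ⟨?_, hx, hcUΓ x hx0, lt_of_le_of_ne (hcU x) (Ne.symm hx0)⟩
      obtain ⟨m, hm⟩ := hU x
      obtain ⟨q, hq, -⟩ := SF_mem ⟨m, hm⟩ (A := A) hm
      exact ⟨q, hq⟩
  · exact ⟨w0, hw0, ⟨w0, _, rfl, hc0⟩, by rw [hkey w0 u0 (fun i => (hw0 i).le) hc0]⟩
  · rintro _ ⟨w, hw, hwG, rfl⟩
    obtain ⟨u, hu⟩ := coord_of_mem hwG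
    rw [hkey w u (fun i => (hw i).le) hu]
    exact hmin u w hw hu

end Pool.Agent.H895.ND
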