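import Mathlib
import Pool.Agent.H895.ND.Mem
import Pool.Agent.H895.ND.Cols
import Pool.Graph.R_pool_sql_team_seeded_1e53cb71.Helper43K9.CI.Asm
import Pool.Graph.R_pool_sql_team_seeded_1e53cb71.Helper58K9.ET.Defs

/-!
# Nondegenerate boundaries on nondegenerate complete intersections: definitions
-/

set_option autoImplicit false

namespace Pool.Agent.H895.ND

open Pool.Agent.H436R3.Fol Pool.Agent.H436R3.KT Pool.Agent.W497.Mld MvPolynomial
open Pool.Agent.TH165.ACC (pr ex Prim Cn Hs lead part mldsR)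
open Pool.Agent.Helper43K9.NH (ch AA wt Inn expo phi dot)
open Pool.Agent.Helper43K9.CI (CIGerm)

variable {d r s : ℕ} {L : Type} [Field L] [Algebra ℂ L]

/-- A boundary `∑ β_i D_i + ∑ b_k H_k` on the toric variety `Y ⊃ X` such that
`K_Y + X_1 + ... + X_r + ∑ β_i D_i + ∑ b_k H_k` is `ℝ`-Cartier at `P`: the `D_i` are the toric prime
divisors, `X_j` and `H_k` are the closures of the zero sets in the torus of the equations `F_j` of
`X` and of the Laurent polynomials `G_k`, which do not vanish identically on `X`. The local equation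
is `y^(-ψ) ∏ G_k^(b_k)`. (With the form `dy_1 / y_1 ∧ ... ∧ dy_(d + r) / y_(d + r) / (F_1 ... F_r)` the
divisor is `∑ (β_i - 1 - ∑_j φ_j (E_i)) D_i + ∑ b_k H_k`, and the divisor of `G_k` is
`H_k + ∑ φ'_k (E_i) D_i`, where `φ_j (E_i)`, `φ'_k (E_i)` are the orders of `F_j`, `G_k` along `D_i`.) -/
structure Bdry (g : CIGerm r d L) (s : ℕ) where
  β : Fin g.N → ℝ
  nonneg : ∀ i, 0 ≤ β i
  G : Fin s → MvPolynomial (Fin (d + r)) ℂ
  Gne : ∀ k, aeval g.y (G k) ≠ 0
  b : Fin s → ℝ
  b0 : ∀ k, 0 ≤ b k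
  ψ : Fin (d + r) → ℝ
  eq : ∀ i, dot ψ (g.E i) = 1 - β i + ∑ j, (phi (g.S j) (g.E i) : ℝ) +
    ∑ k, b k * (phi (expo (G k)) (g.E i) : ℝ)

variable {g : CIGerm r d L}

/-- The coefficients `b_k` are at most `1` and the `H_k` are nondegenerate, that is in general
position: for all the weights in the interior of the cone and all sets `J` of indices, at all the
common zeros in the torus of the initial forms of `F_1, ..., F_r` and of the `G_k`, `k ∈ J`, the
gradients of these initial forms are linearly independent. -/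
def Bdry.Nondeg (b : Bdry g s) : Prop :=
  (∀ k, b.b k ≤ 1) ∧
  ∀ w, Inn g.E w → ∀ (J : Finset (Fin s)) (ξ : Fin (d + r) → ℂ), (∀ i, ξ i ≠ 0) →
    (∀ j, eval ξ (lead w (g.F j)) = 0) → (∀ k ∈ J, eval ξ (lead w (b.G k)) = 0) →
      LinearIndependent ℂ (Sum.elim
        (fun (j : Fin r) (i : Fin (d + r)) => eval ξ (pderiv i (lead w (g.F j))))
        (fun (k : J) (i : Fin (d + r)) => eval ξ (pderiv i (lead w (b.G k)))))

/-- the exponents of the monomials of the `G k` -/
noncomputable def Bdry.T (b : Bdry g s) : Fin s → Finset (Fin (d + r) → ℤ) :=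
  fun k => expo (b.G k)

/-- `K_X + B` is the restriction to `X` of `K_Y + X_1 + ... + X_r + ∑ β_i D_i + ∑ b_k H_k`, near
`P`. -/
def IsRestr (b : Bdry g s) {B : EffDiv g.X} (e : LocEq B g.P) : Prop :=
  ∀ v : DVal L, IsOverGerm g.P v → ∑ k, e.ρ k * (v.ord (e.g k) : ℝ) =
    -dot b.ψ (wt g.y v) + ∑ k, b.b k * (v.ord (aeval g.y (b.G k)) : ℝ)

/-- `m` is the log discrepancy of a divisor over `X` of toric type: its canonical order and the
orders of the `G_k` are the ones of a component of the intersection of `X` with the toric prime divisor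
over `Y` with the same weights `w`: `-1 - ∑ φ_j (w)` and `φ'_k (w)`. -/
def Computed (b : Bdry g s) {B : EffDiv g.X} (e : LocEq B g.P) (m : ℝ) : Prop :=
  ∃ v : DVal L, IsOverGerm g.P v ∧ IsLogDisc e v m ∧
    IsCanOrd g.X.T v (-1 - ∑ j, phi (g.S j) (wt g.y v)) ∧
    ∀ k, v.ord (aeval g.y (b.G k)) = phi (expo (b.G k)) (wt g.y v)

/-- The coefficients of the boundary lie in `Γ ∪ {0}`. -/
def Bdry.In (b : Bdry g s) (Γ : Set ℝ) : Prop :=
  (∀ i, b.β i ≠ 0 → b.β i ∈ Γ) ∧ ∀ k, b.b k ≠ 0 → b.b k ∈ Γ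

/-- All the `F_j` have multiplicity at least two on a chart: there are at most `d + r` edges
`E_i`, `i ∈ I`, with sum in the interior of the cone, such that for all monomials `m` of all `F_j` the
sum of the `m (E_i) - φ_j (E_i)`, `i ∈ I`, is at least two. (If the cone is simplicial then `Y` is a
quotient of `ℂ^(d + r)` by a finite group, and this says that the pull-backs of the `F_j`, divided by
the monomials which divide them, have multiplicity at least two at `0`.) -/
def MultTwo (g : CIGerm r d L) : Prop :=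
  ∃ I : Finset (Fin g.N), Inn g.E (∑ i ∈ I, g.E i) ∧ I.card ≤ d + r ∧
    ∀ j, ∀ m ∈ g.S j, 2 ≤ ∑ i ∈ I, (pr m (g.E i) - phi (g.S j) (g.E i))

section et

open Pool.Agent.Helper58K9.ET (Etale OverPt Ext ordE)

variable {K M : Type} [Field K] [Algebra ℂ K] [Field M] [Algebra ℂ M]

/-- The pairs `(X, B)` and `(Y, B')` are étale locally isomorphic at the closed points `x` and `P`:
there is a variety `U = Spec S` with étale morphisms `U → X` and `U → Y` and a closed point `y` over
`x` and `P`, such that the pull-backs of `K_X + B` and `K_Y + B'` to `U` agree near `y`: they have the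
same difference with the canonical divisor, at all the prime divisors over `U` with the centre `y`. -/
def EtIso {X : AffVar K} {B : EffDiv X} {x : Pt X} (e : LocEq B x) {Y : AffVar M} {B' : EffDiv Y}
    {P : Pt Y} (e' : LocEq B' P) : Prop :=
  ∃ (L : Type) (_ : Field L) (_ : Algebra ℂ L) (_ : Algebra K L) (_ : IsScalarTower ℂ K L)
    (_ : Algebra M L) (_ : IsScalarTower ℂ M L) (S : Subalgebra ℂ L) (h : Etale X S)
    (h' : Etale Y S) (T : Foliation L X.d) (T' : Foliation L Y.d) (y : S →ₐ[ℂ] ℂ),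
    Ext X T ∧ Ext Y T' ∧ h.im y = x ∧ h'.im y = P ∧
    ∀ w, OverPt S y w → ∀ n n' : ℤ, IsCanOrd T w n → IsCanOrd T' w n' →
      (n : ℝ) - ordE e w = (n' : ℝ) - ordE e' w

end et

theorem Bdry.G0 (b : Bdry g s) (k : Fin s) : b.G k ≠ 0 := by
  intro h
  apply b.Gne k
  rw [h, map_zero]

end Pool.Agent.H895.ND
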