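import Mathlib
import Pool.Agent.H895.ND.Defs
import Pool.Graph.R_pool_sql_team_seeded_1e53cb71.Helper43K9.CI.Idx

/-!
# The lower bound of the canonical order, with the orders of the `G k`
-/

set_option autoImplicit false
set_option linter.unusedVariables false
set_option linter.unusedSectionVars false

namespace Pool.Agent.H895.ND

open Pool.Agent.H436R3.Fol Pool.Agent.H436R3.KT Pool.Agent.W497.Mld MvPolynomial
open Pool.Agent.TH165.ACC (pr ex Prim Cn Hs lead part mldsR mvI mem_mvI ord_eq_zero_of_notMem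
  lead_eq euler_part support_euler)
open Pool.Agent.Helper43K9.NH (ch AA wt Inn expo phi dot Phi' reg_mul_zpow' phi_expo der_aeval
  ge_of_weights)
open Pool.Agent.Helper43K9.CI (CIGerm GM)
open Pool.Agent.Helper43K9.CI.RedL

variable {d r s : ℕ} {L : Type} [Field L] [Algebra ℂ L]

/-! ### matrices -/

theorem cmm_map {κ R R' : Type} [CommRing R] [CommRing R'] (f : R →+* R')
    (t : Fin d → κ ⊕ Fin (d + r)) (γ : κ → Fin (d + r) → R) (a : Fin r → Fin (d + r) → R) :
    f.mapMatrix (cmm t γ a) = cmm t (fun k l => f (γ k l)) (fun j l => f (a j l)) := by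
  ext l i
  refine Fin.addCases (fun i => ?_) (fun j => ?_) i
  · rw [RingHom.mapMatrix_apply, Matrix.map_apply, cmm_left, cmm_left]
    rcases t i with k | m
    · simp only [tc, Sum.elim_inl]
    · simp only [tc, Sum.elim_inr]
      split_ifs
      · exact f.map_one
      · exact f.map_zero
  · rw [RingHom.mapMatrix_apply, Matrix.map_apply, cmm_right, cmm_right]

theorem cmm_scale {κ R : Type} [CommRing R] [Fintype κ] {C : Type} [Fintype C]
    (ε : Fin d ≃ κ ⊕ C) (c : C → Fin (d + r)) (γ : κ → Fin (d + r) → R)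
    (a : Fin r → Fin (d + r) → R) (p : κ → R) (q : Fin r → R) :
    (cmm (fun i => Sum.map id c (ε i)) (fun k l => γ k l * p k) (fun j l => a j l * q j)).det =
      ((∏ k, p k) * ∏ j, q j) * (cmm (fun i => Sum.map id c (ε i)) γ a).det := by
  have h1 : cmm (fun i => Sum.map id c (ε i)) (fun k l => γ k l * p k) (fun j l => a j l * q j) =
      Matrix.of fun l i => Fin.addCases (motive := fun _ => R)
        (fun i => Sum.elim p (fun _ => 1) (ε i)) q i *
          cmm (fun i => Sum.map id c (ε i)) γ a l i := by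
    ext l i
    rw [Matrix.of_apply]
    refine Fin.addCases (fun i => ?_) (fun j => ?_) i
    · rw [cmm_left, cmm_left, Fin.addCases_left]
      rcases ε i with k | m
      · simp only [tc, Sum.map_inl, Sum.elim_inl, id_eq]
        ring
      · simp only [tc, Sum.map_inr, Sum.elim_inr, one_mul]
    · rw [cmm_right, cmm_right, Fin.addCases_right]
      ring
  rw [h1, Matrix.det_mul_row, Fin.prod_univ_add]
  simp only [Fin.addCases_left, Fin.addCases_right]
  congr 2
  rw [← ε.symm.prod_comp, Fintype.prod_sum_type]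
  simp

/-! ### orders -/

theorem phi_le_ord {g : CIGerm r d L} (b : Bdry g s) (v : DVal L) (k : Fin s) :
    phi (expo (b.G k)) (wt g.y v) ≤ v.ord (aeval g.y (b.G k)) :=
  (ge_of_weights g.yne (phi_expo (b.G0 k) (wt g.y v)).2).resolve_left (b.Gne k)

/-- the indices of the `G k` which have an order greater than the one of a general polynomial with
the same monomials -/
noncomputable def KK {g : CIGerm r d L} (b : Bdry g s) (v : DVal L) : Finset (Fin s) :=
  Finset.univ.filter fun k => phi (expo (b.G k)) (wt g.y v) < v.ord (aeval g.y (b.G k))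

theorem li_mul {n : ℕ} {ι : Type} {z : ι → Fin n → ℂ} {ξ : Fin n → ℂ} (hξ : ∀ i, ξ i ≠ 0)
    (h : LinearIndependent ℂ z) : LinearIndependent ℂ fun (j : ι) (i : Fin n) => ξ i * z j i := by
  let D : (Fin n → ℂ) →ₗ[ℂ] (Fin n → ℂ) := LinearMap.pi fun i => ξ i • LinearMap.proj i
  have hD : ∀ z i, D z i = ξ i * z i := fun z i => rfl
  have h2 := h.map' D (by
    rw [LinearMap.ker_eq_bot']
    intro z hz
    funext i
    have h3 := congrFun hz i
    rw [hD] at h3
    exact (mul_eq_zero.1 h3).resolve_left (hξ i))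
  exact h2

/-- Some minor of the matrix of the logarithmic gradients has the least possible order. -/
theorem idx {g : CIGerm r d L} (b : Bdry g s) (hb : b.Nondeg) {v : DVal L}
    (hInn : Inn g.E (wt g.y v)) :
    ∃ (C : Type) (_ : Fintype C) (ε : Fin d ≃ {k // k ∈ KK b v} ⊕ C) (c : C → Fin (d + r)),
      (cmm (fun i => Sum.map id c (ε i)) (fun k l => aeval g.y (X l * pderiv l (b.G k.1)))
        (fun j l => aeval g.y (X l * pderiv l (g.F j)))).det ≠ 0 ∧
      v.ord (cmm (fun i => Sum.map id c (ε i)) (fun k l => aeval g.y (X l * pderiv l (b.G k.1)))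
        (fun j l => aeval g.y (X l * pderiv l (g.F j)))).det =
        ∑ j, phi (g.S j) (wt g.y v) + ∑ k ∈ KK b v, phi (expo (b.G k)) (wt g.y v) := by
  classical
  obtain ⟨π, hπ, h1⟩ := v.surj
  have hy := g.yne
  obtain ⟨ξ, hξ, hev⟩ := point hy hπ h1
  set u := wt g.y v with hu
  have hm1 := fun j => (phi_expo (g.Fne j) u).1
  have hm2 := fun j => (phi_expo (g.Fne j) u).2
  obtain ⟨m, hm⟩ : ∃ m : Fin r → ℤ, m = fun j => phi (expo (g.F j)) u := ⟨_, rfl⟩
  have hmj : ∀ j, phi (expo (g.F j)) u = m j := fun j => by rw [hm]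
  simp only [hmj] at hm1 hm2
  have hk1 := fun k => (phi_expo (b.G0 k) u).1
  have hk2 := fun k => (phi_expo (b.G0 k) u).2
  obtain ⟨m', hm'⟩ : ∃ m' : Fin s → ℤ, m' = fun k => phi (expo (b.G k)) u := ⟨_, rfl⟩
  have hmk : ∀ k, phi (expo (b.G k)) u = m' k := fun k => by rw [hm']
  simp only [hmk] at hk1 hk2
  have hlead : ∀ j, lead u (g.F j) = part u (m j) (g.F j) := fun j => lead_eq (hm1 j) (hm2 j)
  have hleadG : ∀ k, lead u (b.G k) = part u (m' k) (b.G k) := fun k => lead_eq (hk1 k) (hk2 k)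
  have hF0 : ∀ j, aeval g.y (g.F j) = 0 := by
    intro j
    rw [g.ker]
    refine ⟨0, ?_⟩
    have : (monomial (0 : Fin (d + r) →₀ ℕ) (1 : ℂ)) = 1 := rfl
    rw [this, one_mul]
    exact Ideal.subset_span ⟨j, rfl⟩
  have hJ : ∀ j, lead u (g.F j) ∈ P hy hπ h1 := by
    intro j
    rw [hlead]
    change v.Pos _
    obtain ⟨h2, h3⟩ := reg_mul_zpow' hy hπ h1 (hm2 j)
    rw [hF0, zero_mul] at h3
    have h5 : (Phi' hy hπ h1 (part u (m j) (g.F j)) : L) =
        (-1) * (0 - (Phi' hy hπ h1 (part u (m j) (g.F j)) : L)) := by ring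
    rw [h5]
    exact v.pos_mul_left (v.reg_neg v.reg_one) h3
  have hJG : ∀ k ∈ KK b v, lead u (b.G k) ∈ P hy hπ h1 := by
    intro k hk
    have hk' := (Finset.mem_filter.1 hk).2
    rw [← hu, hmk] at hk'
    rw [hleadG]
    change v.Pos _
    obtain ⟨h2, h3⟩ := reg_mul_zpow' hy hπ h1 (hk2 k)
    have h4 : v.Pos (aeval g.y (b.G k) * π ^ (-m' k)) := by
      right
      rw [v.map_mul _ _ (b.Gne k) (zpow_ne_zero _ hπ), v.ord_zpow hπ, h1]
      omega
    have h5 : (Phi' hy hπ h1 (part u (m' k) (b.G k)) : L) =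
        aeval g.y (b.G k) * π ^ (-m' k) + (-1) * (aeval g.y (b.G k) * π ^ (-m' k) -
          (Phi' hy hπ h1 (part u (m' k) (b.G k)) : L)) := by ring
    rw [h5]
    exact v.pos_add h4 (v.pos_mul_left (v.reg_neg v.reg_one) h3)
  have hind := hb.2 u hInn (KK b v) ξ hξ (fun j => hev _ (hJ j)) fun k hk => hev _ (hJG k hk)
  have hli : LinearIndependent ℂ (Sum.elim
      (fun (j : Fin r) (i : Fin (d + r)) => eval ξ (X i * pderiv i (lead u (g.F j))))
      (fun (k : {k // k ∈ KK b v}) (i : Fin (d + r)) =>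
        eval ξ (X i * pderiv i (lead u (b.G k.1))))) := by
    have h2 := li_mul hξ hind
    convert! h2 using 1
    funext x i
    rcases x with j | k
    · simp only [Sum.elim_inl]
      rw [map_mul, eval_X]
    · simp only [Sum.elim_inr]
      rw [map_mul, eval_X]
  obtain ⟨C, iC, ε, c, hκ⟩ := exists_cols _ _ hli
  refine ⟨C, iC, ε, c, ?_⟩
  obtain ⟨Q, hQe⟩ : ∃ Q : Matrix (Fin (d + r)) (Fin (d + r)) (MvPolynomial (Fin (d + r)) ℂ),
      Q = cmm (fun i => Sum.map id c (ε i))
        (fun (k : {k // k ∈ KK b v}) l => X l * pderiv l (lead u (b.G k.1)))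
        fun j l => X l * pderiv l (lead u (g.F j)) := ⟨_, rfl⟩
  have hQ : Q.det ∉ P hy hπ h1 := by
    intro h2
    apply hκ
    rw [← hev _ h2, RingHom.map_det, hQe, cmm_map]
  have hreg : ∀ (l : Fin (d + r)) (j : Fin r),
      v.Reg (aeval g.y (X l * pderiv l (g.F j)) * π ^ (-m j)) ∧
      v.Pos (aeval g.y (X l * pderiv l (g.F j)) * π ^ (-m j) -
        (Phi' hy hπ h1 (X l * pderiv l (lead u (g.F j))) : L)) := by
    intro l j
    have h2 := reg_mul_zpow' hy hπ h1 (q := X l * pderiv l (g.F j)) (m := m j)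
      fun t ht => hm2 j t (support_euler _ _ ht)
    rw [← hu, ← euler_part, ← hlead] at h2
    exact h2
  have hregG : ∀ (l : Fin (d + r)) (k : Fin s),
      v.Reg (aeval g.y (X l * pderiv l (b.G k)) * π ^ (-m' k)) ∧
      v.Pos (aeval g.y (X l * pderiv l (b.G k)) * π ^ (-m' k) -
        (Phi' hy hπ h1 (X l * pderiv l (lead u (b.G k))) : L)) := by
    intro l k
    have h2 := reg_mul_zpow' hy hπ h1 (q := X l * pderiv l (b.G k)) (m := m' k)
      fun t ht => hk2 k t (support_euler _ _ ht)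
    rw [← hu, ← euler_part, ← hleadG] at h2
    exact h2
  obtain ⟨AO, hAOe⟩ : ∃ AO : Matrix (Fin (d + r)) (Fin (d + r)) v.O,
      AO = cmm (fun i => Sum.map id c (ε i)) (fun (k : {k // k ∈ KK b v}) l =>
          ⟨aeval g.y (X l * pderiv l (b.G k.1)) * π ^ (-m' k.1), (hregG l k.1).1⟩)
        fun j l => ⟨aeval g.y (X l * pderiv l (g.F j)) * π ^ (-m j), (hreg l j).1⟩ :=
    ⟨_, rfl⟩
  have hAO : AO.det ∉ mvI v := by
    intro h2
    apply hQ
    have h3 : (Ideal.Quotient.mk (mvI v)).mapMatrix AO =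
        (Ideal.Quotient.mk (mvI v)).mapMatrix ((Phi' hy hπ h1).mapMatrix Q) := by
      rw [hAOe, hQe, cmm_map, cmm_map, cmm_map]
      congr 1
      · funext k l
        rw [Ideal.Quotient.eq, mem_mvI]
        exact (hregG l k.1).2
      · funext j l
        rw [Ideal.Quotient.eq, mem_mvI]
        exact (hreg l j).2
    have h4 : Ideal.Quotient.mk (mvI v) AO.det =
        Ideal.Quotient.mk (mvI v) (Phi' hy hπ h1 Q.det) := by
      rw [RingHom.map_det, h3, RingHom.map_det, RingHom.map_det]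
    rw [Ideal.Quotient.eq_zero_iff_mem.2 h2] at h4
    change Phi' hy hπ h1 Q.det ∈ mvI v
    exact Ideal.Quotient.eq_zero_iff_mem.1 h4.symm
  obtain ⟨hd0, hd⟩ := ord_eq_zero_of_notMem hAO
  obtain ⟨G, hG⟩ : ∃ G, G = cmm (fun i => Sum.map id c (ε i))
      (fun (k : {k // k ∈ KK b v}) l => aeval g.y (X l * pderiv l (b.G k.1)))
        (fun j l => aeval g.y (X l * pderiv l (g.F j))) := ⟨_, rfl⟩
  rw [← hG]
  have hdet : (AO.det : L) = ((∏ k : {k // k ∈ KK b v}, π ^ (-m' k.1)) * ∏ j, π ^ (-m j)) *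
      G.det := by
    have h2 := v.O.subtype.map_det AO
    change (AO.det : L) = _ at h2
    rw [h2, hAOe, cmm_map, hG]
    exact cmm_scale ε c (fun (k : {k // k ∈ KK b v}) l => aeval g.y (X l * pderiv l (b.G k.1)))
      (fun j l => aeval g.y (X l * pderiv l (g.F j))) (fun k => π ^ (-m' k.1)) fun j => π ^ (-m j)
  rw [hdet] at hd0 hd
  have hG0 : G.det ≠ 0 := right_ne_zero_of_mul hd0
  refine ⟨hG0, ?_⟩
  have hp : (∏ k : {k // k ∈ KK b v}, π ^ (-m' k.1)) * ∏ j, π ^ (-m j) ≠ 0 :=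
    left_ne_zero_of_mul hd0
  have hp1 := left_ne_zero_of_mul hp
  have hp2 := right_ne_zero_of_mul hp
  rw [v.map_mul _ _ hp hG0, v.map_mul _ _ hp1 hp2, v.ord_prod _ _ fun j _ => zpow_ne_zero _ hπ,
    v.ord_prod _ _ fun j _ => zpow_ne_zero _ hπ] at hd
  have hsum : ∑ j, v.ord (π ^ (-m j)) = -∑ j, m j := by
    rw [← Finset.sum_neg_distrib]
    refine Finset.sum_congr rfl fun j _ => ?_
    rw [v.ord_zpow hπ, h1, mul_one]
  have hsum' : ∑ k : {k // k ∈ KK b v}, v.ord (π ^ (-m' k.1)) = -∑ k ∈ KK b v, m' k := by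
    rw [← Finset.sum_coe_sort (KK b v) m', ← Finset.sum_neg_distrib]
    refine Finset.sum_congr rfl fun j _ => ?_
    rw [v.ord_zpow hπ, h1, mul_one]
  have hgoal : ∑ j, phi (g.S j) u = ∑ j, m j := Finset.sum_congr rfl fun j _ => hmj j
  have hgoal' : ∑ k ∈ KK b v, phi (expo (b.G k)) u = ∑ k ∈ KK b v, m' k :=
    Finset.sum_congr rfl fun j _ => hmk j
  rw [hgoal, hgoal']
  have hd' : (∑ k : {k // k ∈ KK b v}, v.ord (π ^ (-m' k.1))) + (∑ j, v.ord (π ^ (-m j))) +
    v.ord G.det = 0 := hd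
  rw [hsum, hsum'] at hd'
  have hfin : v.ord G.det = ∑ j, m j + ∑ k ∈ KK b v, m' k := by omega
  exact hfin

/-- the functions `G k`, `y m` -/
noncomputable def hh (g : CIGerm r d L) {κ : Type} (G : κ → MvPolynomial (Fin (d + r)) ℂ)
    (t : κ ⊕ Fin (d + r)) : L :=
  Sum.elim (fun k => aeval g.y (G k)) g.y t

theorem det_h (g : CIGerm r d L) {κ : Type} [Fintype κ] (G : κ → MvPolynomial (Fin (d + r)) ℂ)
    {C : Type} [Fintype C] (ε : Fin d ≃ κ ⊕ C) (c : C → Fin (d + r)) :
    (Matrix.of fun (j i : Fin g.X.d) => g.X.T.D j (hh g G (Sum.map id c (ε (g.e i))))).det =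
      (∏ x, g.y (c x)) *
        (cmm (fun i => Sum.map id c (ε i)) (fun k l => aeval g.y (X l * pderiv l (G k)))
          (fun j l => aeval g.y (X l * pderiv l (g.F j)))).det := by
  have hGM : cmm (fun i => Sum.map id c (ε i)) (fun k l => aeval g.y (X l * pderiv l (G k)))
          (fun j l => aeval g.y (X l * pderiv l (g.F j))) =
      GM g.y g.F (Matrix.of fun l i => tc (fun k l => aeval g.y (X l * pderiv l (G k)))
        (Sum.map id c (ε i)) l) := by
    ext l i
    refine Fin.addCases (fun i => ?_) (fun j => ?_) i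
    · rw [cmm_left, GM, Matrix.of_apply, Fin.addCases_left, Matrix.of_apply]
    · rw [cmm_right, GM, Matrix.of_apply, Fin.addCases_right]
  have hprod : ∏ x, g.y (c x) = ∏ i : Fin g.X.d,
      Sum.elim (fun _ => (1 : L)) (fun x => g.y (c x)) (ε (g.e i)) := by
    refine Eq.trans ?_ ((g.e.trans ε).prod_comp
      (Sum.elim (fun _ => (1 : L)) (fun x => g.y (c x)))).symm
    rw [Fintype.prod_sum_type]
    simp
  rw [hGM, hprod, ← g.res, ← Matrix.det_submatrix_equiv_self g.e ((Matrix.of fun (j : Fin d)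
    (l : Fin (d + r)) => g.X.T.D (g.e.symm j) (g.y l) / g.y l) *
      (Matrix.of fun l i => tc (fun k l => aeval g.y (X l * pderiv l (G k)))
        (Sum.map id c (ε i)) l)), ← Matrix.det_mul_row]
  congr 1
  ext j i
  rw [Matrix.of_apply, Matrix.of_apply, Matrix.submatrix_apply, Matrix.mul_apply]
  simp only [Matrix.of_apply, Equiv.symm_apply_apply]
  rcases ε (g.e i) with k | x
  · simp only [Sum.map_inl, Sum.elim_inl, id_eq, hh, tc, one_mul]
    rw [der_aeval g.yne]
    exact Finset.sum_congr rfl fun l _ => mul_comm _ _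
  · simp only [Sum.map_inr, Sum.elim_inr, hh, tc]
    rw [Finset.sum_eq_single (c x)]
    · rw [if_pos rfl, mul_one, mul_div_cancel₀ _ (g.yne _)]
    · intro l _ hl
      rw [if_neg hl, mul_zero]
    · intro h
      exact absurd (Finset.mem_univ _) h

/-- **The lower bound of the canonical order.** -/
theorem low {g : CIGerm r d L} (b : Bdry g s) (hb : b.Nondeg) {v : DVal L}
    (h : Inn g.E (wt g.y v))
    (A : Matrix (Fin g.X.d) (Fin g.X.d) L) (hA0 : A.det ≠ 0)
    (hA : ∀ i, Preserves v (∑ j, A i j • g.X.T.D j)) :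
    -1 - ∑ j, phi (g.S j) (wt g.y v) + ∑ k ∈ KK b v,
      (v.ord (aeval g.y (b.G k)) - phi (expo (b.G k)) (wt g.y v)) ≤ v.ord A.det := by
  classical
  obtain ⟨C, iC, ε, c, hk0, hk⟩ := idx b hb h
  have hp : (∏ x, g.y (c x)) ≠ 0 := Finset.prod_ne_zero_iff.2 fun i _ => g.yne _
  have hh0 : ∀ i : Fin g.X.d, hh g (fun k : {k // k ∈ KK b v} => b.G k.1)
      (Sum.map id c (ε (g.e i))) ≠ 0 := by
    intro i
    rcases ε (g.e i) with k | x
    · exact b.Gne k.1
    · exact g.yne _
  have h1 := gji v g.X.T.D A hA0 hA (fun i => hh g (fun k : {k // k ∈ KK b v} => b.G k.1)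
      (Sum.map id c (ε (g.e i)))) hh0 (by rw [det_h]; exact mul_ne_zero hp hk0)
  rw [det_h, v.map_mul _ _ hp hk0, hk, v.ord_prod _ _ fun i _ => g.yne _] at h1
  have h2 : ∑ i, v.ord (hh g (fun k : {k // k ∈ KK b v} => b.G k.1)
      (Sum.map id c (ε (g.e i)))) = ∑ k ∈ KK b v, v.ord (aeval g.y (b.G k)) +
        ∑ x, v.ord (g.y (c x)) := by
    refine ((g.e.trans ε).sum_comp (fun x => v.ord (hh g
      (fun k : {k // k ∈ KK b v} => b.G k.1) (Sum.map id c x)))).trans ?_
    rw [Fintype.sum_sum_type]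
    congr 1
    exact Finset.sum_coe_sort (KK b v) fun k => v.ord (aeval g.y (b.G k))
  rw [h2] at h1
  rw [Finset.sum_sub_distrib]
  omega

end Pool.Agent.H895.ND
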