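import Mathlib
import Pool.Agent.H895.ND.Defs

/-!
# The weights of the divisors over a nondegenerate complete intersection satisfy Rado's condition
-/

set_option autoImplicit false
set_option linter.unusedVariables false
set_option linter.unusedSectionVars false

namespace Pool.Agent.H895.ND

open Pool.Agent.H436R3.Fol Pool.Agent.H436R3.KT Pool.Agent.W497.Mld MvPolynomial
open Pool.Agent.TH165.ACC (pr ex Prim Cn Hs lead part mldsR mvI mem_mvI ord_eq_zero_of_notMem
  lead_eq euler_part support_euler pr_sub)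
open Pool.Agent.Helper43K9.NH (ch AA wt Inn expo phi dot Phi' reg_mul_zpow' phi_expo der_aeval
  ge_of_weights aeval_eq_sum aeval_euler mem_expo)
open Pool.Agent.Helper43K9.CI (CIGerm GM ini expo_lead)
open Pool.Agent.Helper43K9.CI.RedL
open Pool.Agent.Helper58K9.CI (VJ RadoC ev rv)
open Module

variable {n r : ℕ}

theorem rado_of_zero (F : Fin r → MvPolynomial (Fin n) ℂ) (hF : ∀ j, F j ≠ 0)
    (w : Fin n → ℤ) (ξ : Fin n → ℂ) (hξ : ∀ i, ξ i ≠ 0) (hz : ∀ j, eval ξ (lead w (F j)) = 0)
    (hind : LinearIndependent ℂ fun (j : Fin r) (i : Fin n) =>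
      eval ξ (X i * pderiv i (lead w (F j)))) :
    RadoC (fun j => expo (F j)) w := by
  classical
  intro J
  set V := VJ (fun j => expo (F j)) w J with hV
  let T : (Fin n → ℝ) → (Fin n → ℂ) := fun x i => ((x i : ℝ) : ℂ)
  let B := Module.finBasis ℝ V
  let W : Submodule ℂ (Fin n → ℂ) := Submodule.span ℂ (Set.range fun i => T (B i : Fin n → ℝ))
  have h1 : ∀ x ∈ V, T x ∈ W := by
    intro x hx
    have h2 := B.sum_repr ⟨x, hx⟩
    have h3 : x = ∑ i, (B.repr ⟨x, hx⟩ i) • ((B i : V) : Fin n → ℝ) := by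
      have h4 := congrArg V.subtype h2
      rw [map_sum] at h4
      exact h4.symm
    have h4 : T x = ∑ i, ((B.repr ⟨x, hx⟩ i : ℝ) : ℂ) • T ((B i : V) : Fin n → ℝ) := by
      funext k
      have h5 := congrFun h3 k
      rw [Finset.sum_apply] at h5 ⊢
      change ((x k : ℝ) : ℂ) = _
      rw [h5]
      push_cast
      exact Finset.sum_congr rfl fun i _ => by simp [T]
    rw [h4]
    exact Submodule.sum_mem _ fun i _ => Submodule.smul_mem _ _ (Submodule.subset_span ⟨i, rfl⟩)
  have h2 : ∀ j ∈ J, (fun i : Fin n => eval ξ (X i * pderiv i (lead w (F j)))) ∈ W := by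
    intro j hj
    set p := lead w (F j) with hp
    have e1 : eval ξ p = ∑ t ∈ p.support, p.coeff t * ch ξ (ex t) := by
      rw [← coe_aeval_eq_eval, RingHom.coe_coe, aeval_eq_sum]
      rfl
    have e2 : ∀ i, eval ξ (X i * pderiv i p) = ∑ t ∈ p.support, (t i : ℂ) *
        (p.coeff t * ch ξ (ex t)) := by
      intro i
      rw [← coe_aeval_eq_eval, RingHom.coe_coe, aeval_euler]
      rfl
    have hsupp : ∀ t ∈ p.support, ex t ∈ expo (F j) ∧ pr (ex t) w = phi (expo (F j)) w := by
      intro t ht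
      have h3 : ex t ∈ expo p := mem_expo.2 ⟨t, ht, rfl⟩
      rw [hp, expo_lead (hF j), ini, Finset.mem_filter] at h3
      exact h3
    rcases p.support.eq_empty_or_nonempty with h0 | ⟨t0, ht0⟩
    · have h3 : (fun i : Fin n => eval ξ (X i * pderiv i p)) = 0 := by
        funext i
        rw [e2, h0, Finset.sum_empty]
        rfl
      rw [h3]
      exact W.zero_mem
    · have h3 : (fun i : Fin n => eval ξ (X i * pderiv i p)) =
          ∑ t ∈ p.support, (p.coeff t * ch ξ (ex t)) • T (rv (ex t - ex t0)) := by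
        funext i
        rw [e2, Finset.sum_apply]
        have h4 := hz j
        rw [← hp, e1] at h4
        have h5 : ∑ t ∈ p.support, (t0 i : ℂ) * (p.coeff t * ch ξ (ex t)) = 0 := by
          rw [← Finset.mul_sum, h4, mul_zero]
        rw [← sub_zero (∑ t ∈ p.support, (t i : ℂ) * (p.coeff t * ch ξ (ex t))), ← h5,
          ← Finset.sum_sub_distrib]
        refine Finset.sum_congr rfl fun t _ => ?_
        simp only [T, rv, Pi.smul_apply, smul_eq_mul, Pi.sub_apply, Pool.Agent.TH165.ACC.ex]
        push_cast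
        ring
      rw [h3]
      refine Submodule.sum_mem _ fun t ht => Submodule.smul_mem _ _ (h1 _ ?_)
      exact Submodule.subset_span ⟨j, hj, ex t, (hsupp t ht).1, ex t0, (hsupp t0 ht0).1,
        (hsupp t ht).2, (hsupp t0 ht0).2, rfl⟩
  have h3 : LinearIndependent ℂ fun (j : J) (i : Fin n) =>
      eval ξ (X i * pderiv i (lead w (F j.1))) :=
    hind.comp (fun j : J => j.1) Subtype.val_injective
  have h4 : J.card = finrank ℂ (Submodule.span ℂ (Set.range fun (j : J) (i : Fin n) =>
      eval ξ (X i * pderiv i (lead w (F j.1))))) := by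
    rw [finrank_span_eq_card h3, Fintype.card_coe]
  have h5 : Submodule.span ℂ (Set.range fun (j : J) (i : Fin n) =>
      eval ξ (X i * pderiv i (lead w (F j.1)))) ≤ W := by
    rw [Submodule.span_le]
    rintro _ ⟨j, rfl⟩
    exact h2 j.1 j.2
  calc J.card = _ := h4
    _ ≤ finrank ℂ W := Submodule.finrank_mono h5
    _ ≤ Fintype.card (Fin (finrank ℝ V)) := finrank_range_le_card _
    _ = finrank ℝ V := Fintype.card_fin _

/-- the weights of a valuation with weights in the interior of the cone -/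
theorem rado_wt {d r : ℕ} {L : Type} [Field L] [Algebra ℂ L] {g : CIGerm r d L} {v : DVal L}
    (hInn : Inn g.E (wt g.y v)) : RadoC g.S (wt g.y v) := by
  obtain ⟨π, hπ, h1⟩ := v.surj
  have hy := g.yne
  obtain ⟨ξ, hξ, hev⟩ := point hy hπ h1
  have hJ : ∀ j, lead (wt g.y v) (g.F j) ∈ P hy hπ h1 := by
    intro j
    obtain ⟨hm1, hm2⟩ := phi_expo (g.Fne j) (wt g.y v)
    rw [lead_eq hm1 hm2]
    change v.Pos _
    obtain ⟨h2, h3⟩ := reg_mul_zpow' hy hπ h1 hm2
    have hF0 : aeval g.y (g.F j) = 0 := by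
      rw [g.ker]
      refine ⟨0, ?_⟩
      have : (monomial (0 : Fin (d + r) →₀ ℕ) (1 : ℂ)) = 1 := rfl
      rw [this, one_mul]
      exact Ideal.subset_span ⟨j, rfl⟩
    rw [hF0, zero_mul] at h3
    have h5 : (Phi' hy hπ h1 (part (wt g.y v) (phi (expo (g.F j)) (wt g.y v)) (g.F j)) : L) =
        (-1) * (0 - (Phi' hy hπ h1 (part (wt g.y v) (phi (expo (g.F j)) (wt g.y v))
          (g.F j)) : L)) := by ring
    rw [h5]
    exact v.pos_mul_left (v.reg_neg v.reg_one) h3
  have hind := g.nondeg _ hInn ξ hξ fun j => hev _ (hJ j)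
  have hli : LinearIndependent ℂ fun (j : Fin r) (i : Fin (d + r)) =>
      eval ξ (X i * pderiv i (lead (wt g.y v) (g.F j))) := by
    let D : (Fin (d + r) → ℂ) →ₗ[ℂ] (Fin (d + r) → ℂ) :=
      LinearMap.pi fun i => ξ i • LinearMap.proj i
    have hD : ∀ z i, D z i = ξ i * z i := fun z i => rfl
    have h2 := hind.map' D (by
      rw [LinearMap.ker_eq_bot']
      intro z hz
      funext i
      have h3 := congrFun hz i
      rw [hD] at h3
      exact (mul_eq_zero.1 h3).resolve_left (hξ i))
    have h3 : (fun (j : Fin r) (i : Fin (d + r)) =>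
        eval ξ (X i * pderiv i (lead (wt g.y v) (g.F j)))) =
        D ∘ fun (j : Fin r) (i : Fin (d + r)) =>
          eval ξ (pderiv i (lead (wt g.y v) (g.F j))) := by
      funext j i
      rw [Function.comp_apply, hD, map_mul, eval_X]
    rw [h3]
    exact h2
  exact rado_of_zero g.F g.Fne _ ξ hξ (fun j => hev _ (hJ j)) hli

end Pool.Agent.H895.ND
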