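import Mathlib
import Pool.Agent.H895.ND.Low
import Pool.Agent.H895.ND.Rad
import Pool.Agent.H895.ND.Inv
import Pool.Graph.R_pool_sql_team_seeded_1e53cb71.Helper43K9.CI.Asm
import Pool.Graph.R_pool_sql_team_seeded_1e53cb71.Helper43K9.CI.Step
import Pool.Graph.R_pool_sql_team_seeded_1e53cb71.Helper43K9.CI.Bk
import Pool.Graph.R_pool_sql_team_seeded_1e53cb71.Helper43K9.CI.Lim
import Pool.Graph.R_pool_sql_team_seeded_1e53cb71.Helper43K9.CI.Lead
import Pool.Graph.R_pool_sql_team_seeded_1e53cb71.Helper43K9.CI.Inn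
import Pool.Graph.R_pool_sql_team_seeded_1e53cb71.Helper43K9.CI.Evh
import Pool.Graph.R_pool_sql_team_seeded_1e53cb71.Helper43K9.CI.Cot
import Pool.Graph.R_pool_sql_team_seeded_1e53cb71.Helper43K9.CI.Trd
import Pool.Graph.R_pool_sql_team_seeded_1e53cb71.Helper43K9.CI.Prm
import Pool.Graph.R_pool_sql_team_seeded_1e53cb71.Helper43K9.CI.Idx
import Pool.Graph.R_pool_sql_team_seeded_1e53cb71.Helper43K9.CI.Red
import Pool.Graph.R_pool_sql_team_seeded_1e53cb71.Helper43K9.CI.Open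
import Pool.Graph.R_pool_sql_team_seeded_1e53cb71.Helper43K9.CI.Pnt

/-!
# The minimal log discrepancy is the least toric log discrepancy at the weights which satisfy Rado's
condition
-/

set_option autoImplicit false
set_option linter.unusedVariables false
set_option linter.unusedSectionVars false

namespace Pool.Agent.H895.ND

open Pool.Agent.H436R3.Fol Pool.Agent.H436R3.KT Pool.Agent.W497.Mld MvPolynomial
open Pool.Agent.TH165.ACC (pr ex Prim Cn Hs lead part mldsR exists_prim Coord)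
open Pool.Agent.Helper43K9.NH (ch AA wt Inn expo phi dot expo_nonempty)
open Pool.Agent.Helper43K9.CI (CIGerm Bern inn_of_over exists_over bern_smul)
open Pool.Agent.Helper58K9.CI (RadoC VJ)

variable {d r s : ℕ} {L : Type} [Field L] [Algebra ℂ L]

theorem bern_of_rado {n r : ℕ} {S : Fin r → Finset (Fin n → ℤ)} {w : Fin n → ℤ}
    (h : RadoC S w) : Bern S w := fun J => (h J).trans
  (Pool.Agent.Helper43K9.CI.finrank_real_le S w J)

theorem T_ne {g : CIGerm r d L} (b : Bdry g s) (k : Fin s) : (b.T k).Nonempty :=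
  expo_nonempty (b.G0 k)

theorem S_ne (g : CIGerm r d L) (j : Fin r) : (g.S j).Nonempty := expo_nonempty (g.Fne j)

/-- the toric log discrepancy is a lower bound -/
theorem low_bound {g : CIGerm r d L} (b : Bdry g s) (hb : b.Nondeg) {B : EffDiv g.X}
    {e : LocEq B g.P} (hr : IsRestr b e) {v : DVal L} (h : IsOverGerm g.P v) {a : ℝ}
    (ha : IsLogDisc e v a) : la b.ψ g.S b.T b.b (wt g.y v) ≤ a := by
  obtain ⟨c, hc, rfl⟩ := ha
  obtain ⟨A, hA0, hA, rfl⟩ := hc.1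
  have h1 := low b hb (inn_of_over h) A hA0 hA
  rw [hr v h, la]
  have h2 : (-1 - ∑ j, (phi (g.S j) (wt g.y v) : ℝ) + ∑ k ∈ KK b v,
      ((v.ord (aeval g.y (b.G k)) : ℝ) - phi (expo (b.G k)) (wt g.y v))) ≤
      (v.ord A.det : ℝ) := by exact_mod_cast h1
  have h3 : ∑ k, b.b k * (v.ord (aeval g.y (b.G k)) : ℝ) ≤
      ∑ k, b.b k * (phi (b.T k) (wt g.y v) : ℝ) + ∑ k ∈ KK b v,
      ((v.ord (aeval g.y (b.G k)) : ℝ) - phi (expo (b.G k)) (wt g.y v)) := by
    have h4 : ∑ k ∈ KK b v, ((v.ord (aeval g.y (b.G k)) : ℝ) -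
        phi (expo (b.G k)) (wt g.y v)) = ∑ k, ((v.ord (aeval g.y (b.G k)) : ℝ) -
        phi (expo (b.G k)) (wt g.y v)) := by
      refine Finset.sum_subset (Finset.subset_univ _) fun k _ hk => ?_
      have h5 : ¬ phi (expo (b.G k)) (wt g.y v) < v.ord (aeval g.y (b.G k)) := fun h6 =>
        hk (Finset.mem_filter.2 ⟨Finset.mem_univ _, h6⟩)
      have h6 := phi_le_ord b v k
      have h7 : v.ord (aeval g.y (b.G k)) = phi (expo (b.G k)) (wt g.y v) := by omega
      rw [h7, sub_self]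
    rw [h4, ← Finset.sum_add_distrib]
    refine Finset.sum_le_sum fun k _ => ?_
    have h5 : (phi (expo (b.G k)) (wt g.y v) : ℝ) ≤ v.ord (aeval g.y (b.G k)) := by
      exact_mod_cast phi_le_ord b v k
    have h6 := hb.1 k
    have h7 := b.b0 k
    change _ ≤ b.b k * (phi (expo (b.G k)) (wt g.y v) : ℝ) + _
    nlinarith
  linarith

/-- a divisor whose log discrepancy is at most the toric one -/
theorem exists_disc {g : CIGerm r d L} (b : Bdry g s) {B : EffDiv g.X}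
    {e : LocEq B g.P} (hr : IsRestr b e) {w : Fin (d + r) → ℤ} (hi : Inn g.E w) (hw : Prim w)
    (hR : RadoC g.S w) : ∃ v a, IsOverGerm g.P v ∧ IsLogDisc e v a ∧
      a ≤ la b.ψ g.S b.T b.b w := by
  obtain ⟨v, hv, hwt, hc⟩ := exists_over
    (Pool.Agent.Helper43K9.CI.bk Pool.Agent.Helper43K9.CI.opn Pool.Agent.Helper43K9.CI.red
      Pool.Agent.Helper43K9.CI.lim) Pool.Agent.Helper43K9.CI.lead_ Pool.Agent.Helper43K9.CI.inn
    (Pool.Agent.Helper43K9.CI.div Pool.Agent.Helper43K9.CI.lim Pool.Agent.Helper43K9.CI.evh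
      Pool.Agent.Helper43K9.CI.cot Pool.Agent.Helper43K9.CI.trd Pool.Agent.Helper43K9.CI.prm)
    (Pool.Agent.Helper43K9.CI.top Pool.Agent.Helper43K9.CI.idx Pool.Agent.Helper43K9.CI.low)
    hi hw (bern_of_rado hR)
  refine ⟨v, _, hv, ⟨_, hc, rfl⟩, ?_⟩
  rw [hr v hv, hwt, la]
  have h3 : ∑ k, b.b k * (phi (b.T k) w : ℝ) ≤ ∑ k, b.b k * (v.ord (aeval g.y (b.G k)) : ℝ) :=
    Finset.sum_le_sum fun k _ => mul_le_mul_of_nonneg_left (by
      have := phi_le_ord b v k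
      rw [hwt] at this
      exact_mod_cast this) (b.b0 k)
  push_cast
  linarith

theorem rado_smul {n r : ℕ} {S : Fin r → Finset (Fin n → ℤ)} (hS : ∀ j, (S j).Nonempty) {k : ℤ}
    (hk : 0 < k) {w : Fin n → ℤ} : RadoC S (k • w) ↔ RadoC S w := by
  have h1 : ∀ J, VJ S (k • w) J = VJ S w J := by
    intro J
    have h2 : ∀ j (m : Fin n → ℤ), pr m (k • w) = phi (S j) (k • w) ↔ pr m w = phi (S j) w := by
      intro j m
      rw [Pool.Agent.Helper43K9.NH.phi_smul (hS j) hk.le, Pool.Agent.TH165.ACC.pr_smul_right]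
      exact mul_right_inj' hk.ne'
    unfold VJ
    simp only [h2]
  constructor
  · intro h J
    have := h J
    rwa [h1] at this
  · intro h J
    have := h J
    rwa [← h1] at this

/-- **The formula.** The minimal log discrepancy is the least toric log discrepancy at the weights
which satisfy the condition of Rado. -/
theorem formula (hdr : 0 < d + r) {g : CIGerm r d L} (b : Bdry g s) {B : EffDiv g.X}
    {e : LocEq B g.P} (hr : IsRestr b e) {m : ℝ} (hm0 : 0 ≤ m)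
    (hm : Pool.Agent.W497.Mld.IsMld e m) (hb : b.Nondeg ∨ Computed b e m) :
    (∃ w, Inn g.E w ∧ RadoC g.S w ∧ la b.ψ g.S b.T b.b w = m) ∧
      ∀ u, Inn g.E u → RadoC g.S u → m ≤ la b.ψ g.S b.T b.b u := by
  have key : ∀ u, Inn g.E u → RadoC g.S u → m ≤ la b.ψ g.S b.T b.b u := by
    intro u hi hu
    obtain ⟨k, u', hk0, hu', rfl⟩ := exists_prim (Pool.Agent.Helper43K9.CI.Inn.ne_zero hdr hi)
    obtain ⟨v, a, hv, ha, hle⟩ := exists_disc b hr (hi.of_smul hk0) hu'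
      ((rado_smul (S_ne g) hk0).1 hu)
    have h1 : m ≤ la b.ψ g.S b.T b.b u' := (hm.2 ⟨v, hv, ha⟩).trans hle
    rw [la_smul (S_ne g) (T_ne b) hk0.le]
    have h2 : (1 : ℝ) ≤ k := by exact_mod_cast hk0
    nlinarith
  rcases hb with hb | ⟨v, hv, hmv, hc, hG⟩
  · obtain ⟨v, hv, hmv⟩ := hm.1
    exact ⟨⟨wt g.y v, inn_of_over hv, rado_wt (inn_of_over hv), le_antisymm
      (low_bound b hb hr hv hmv) (key _ (inn_of_over hv) (rado_wt (inn_of_over hv)))⟩, key⟩
  · refine ⟨⟨wt g.y v, inn_of_over hv, rado_wt (inn_of_over hv), ?_⟩, key⟩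
    obtain ⟨c, hc', ha⟩ := hmv
    have h1 : c = -1 - ∑ j, phi (g.S j) (wt g.y v) := hc'.unique hc
    rw [ha, h1, hr v hv, la]
    have h2 : ∑ k, b.b k * (v.ord (aeval g.y (b.G k)) : ℝ) =
        ∑ k, b.b k * (phi (b.T k) (wt g.y v) : ℝ) :=
      Finset.sum_congr rfl fun k _ => by rw [hG]; rfl
    rw [h2]
    push_cast
    ring

theorem la_edge {g : CIGerm r d L} (b : Bdry g s) (i : Fin g.N) :
    la b.ψ g.S b.T b.b (g.E i) = 1 - b.β i := by
  rw [la, b.eq]
  change 1 - b.β i + _ + ∑ k, b.b k * (phi (b.T k) (g.E i) : ℝ) - _ - _ = _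
  ring

theorem la_edge_le {g : CIGerm r d L} (b : Bdry g s) (i : Fin g.N) :
    la b.ψ g.S b.T b.b (g.E i) ≤ 1 := by
  rw [la_edge]
  have := b.nonneg i
  linarith

/-- **Inversion of adjunction.** If `(X, B)` is log canonical at `P` then the pair
`(Y, X_1 + ... + X_r + ∑ β_i D_i + ∑ b_k H_k)` is log canonical for the toric valuations with centre
`P`. -/
theorem lcType (hdr : 0 < d + r) {g : CIGerm r d L} (b : Bdry g s) {B : EffDiv g.X}
    {e : LocEq B g.P} (hr : IsRestr b e) {m : ℝ} (hm0 : 0 ≤ m)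
    (hm : Pool.Agent.W497.Mld.IsMld e m) (hb : b.Nondeg ∨ Computed b e m) :
    ∀ w, Inn g.E w → 0 ≤ la b.ψ g.S b.T b.b w := by
  obtain ⟨⟨w, hi, hR, hw⟩, hmin⟩ := formula hdr b hr hm0 hm hb
  exact lc_of_rado (S_ne g) (T_ne b) b.b0 g.pointed (la_edge_le b) hi hR
    fun u hu hRu => hm0.trans (hmin u hu hRu)

/-- The minimal log discrepancies are values of the combinatorial ones. -/
theorem mem_comb (hdr : 0 < d + r) {g : CIGerm r d L} (b : Bdry g s)
    {B : EffDiv g.X} {e : LocEq B g.P} (hr : IsRestr b e) {Γ : Set ℝ} (hΓ : b.In Γ) {m : ℝ}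
    (hm0 : 0 ≤ m) (hm : Pool.Agent.W497.Mld.IsMld e m) (hb : b.Nondeg ∨ Computed b e m) :
    ∃ p ≤ d + r, ∃ q, m ∈ mldsR p q (insert 1 Γ) := by
  obtain ⟨⟨w, hi, hR, hw⟩, hmin⟩ := formula hdr b hr hm0 hm hb
  have hE := la_edge_le b
  have hl := lcType hdr b hr hm0 hm hb
  obtain ⟨p, ρ, c, hc, hco, hli, hρ, hle⟩ := min_cone (S_ne g) (T_ne b) b.b0 hE hl hi hR
    fun u hu hRu => by rw [hw]; exact hmin u hu hRu
  have hp : p ≤ d + r := by
    have := hli.fintype_card_le_finrank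
    simpa using this
  have hρ1 : ∀ i, la b.ψ g.S b.T b.b (ρ i) ≤ 1 := by
    intro i
    rcases hρ i with ⟨j, hj⟩ | h
    · rw [hj]; exact hE j
    · rw [h]; exact zero_le_one
  obtain ⟨q, hq⟩ := mem_mldsR (ψ := b.ψ) (S_ne g) (T_ne b) b.b0 (Γ := insert 1 Γ)
    (Set.mem_insert _ _) (fun k hk => Set.mem_insert_of_mem _ (hΓ.2 k hk)) hli hρ1
    (fun i hi1 => by
      rcases hρ i with ⟨j, hj⟩ | h
      · rw [hj, la_edge] at hi1 ⊢
        refine Set.mem_insert_of_mem _ ?_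
        rw [sub_sub_cancel]
        exact hΓ.1 j fun h0 => hi1 (by rw [h0, sub_zero])
      · rw [h, sub_zero]
        exact Set.mem_insert _ _) hc hco hle
  exact ⟨p, hp, q, by rw [hw] at hq; exact hq⟩

/-- the codimension is bounded by the dimension if the equations have multiplicity at least two -/
theorem codim_le (hdr : 0 < d + r) {g : CIGerm r d L} (b : Bdry g s)
    {B : EffDiv g.X} {e : LocEq B g.P} (hr : IsRestr b e) {m : ℝ}
    (hm0 : 0 ≤ m) (hm : Pool.Agent.W497.Mld.IsMld e m) (hb : b.Nondeg ∨ Computed b e m)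
    (h2 : MultTwo g) : r ≤ d := by
  obtain ⟨I, hI, hcard, hm2⟩ := h2
  have hl := lcType hdr b hr hm0 hm hb _ hI
  have h1 : ∀ j, (2 : ℤ) + ∑ i ∈ I, phi (g.S j) (g.E i) ≤ phi (g.S j) (∑ i ∈ I, g.E i) := by
    intro j
    obtain ⟨⟨m, hm, hmw⟩, -⟩ := Pool.Agent.Helper43K9.NH.phi_spec (S_ne g j) (∑ i ∈ I, g.E i)
    rw [← hmw, Pool.Agent.Helper58K9.CI.pr_sum_right]
    have := hm2 j m hm
    rw [Finset.sum_sub_distrib] at this
    omega
  have h3 : ∀ k, ∑ i ∈ I, (phi (b.T k) (g.E i) : ℝ) ≤ phi (b.T k) (∑ i ∈ I, g.E i) := by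
    intro k
    have key : ∀ I : Finset (Fin g.N), ∑ i ∈ I, phi (b.T k) (g.E i) ≤
        phi (b.T k) (∑ i ∈ I, g.E i) := by
      classical
      intro I
      induction I using Finset.induction_on with
      | empty => rw [Finset.sum_empty, Finset.sum_empty, phi_zero (T_ne b k)]
      | insert a I ha ih =>
        rw [Finset.sum_insert ha, Finset.sum_insert ha]
        have h3 := phi_add_le (T_ne b k) (g.E a) (∑ i ∈ I, g.E i)
        omega
    exact_mod_cast key I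
  have h4 : ∑ i ∈ I, la b.ψ g.S b.T b.b (g.E i) ≤ I.card := by
    calc ∑ i ∈ I, la b.ψ g.S b.T b.b (g.E i) ≤ ∑ i ∈ I, (1 : ℝ) :=
          Finset.sum_le_sum fun i _ => la_edge_le b i
      _ = I.card := by simp
  have h5 : ∑ i ∈ I, la b.ψ g.S b.T b.b (g.E i) = ∑ i ∈ I, dot b.ψ (g.E i) -
      ∑ j, ∑ i ∈ I, (phi (g.S j) (g.E i) : ℝ) -
      ∑ k, b.b k * ∑ i ∈ I, (phi (b.T k) (g.E i) : ℝ) := by
    simp only [la, Finset.sum_sub_distrib, Finset.mul_sum]
    rw [Finset.sum_comm (s := I), Finset.sum_comm (s := I)]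
  have h6 : la b.ψ g.S b.T b.b (∑ i ∈ I, g.E i) = ∑ i ∈ I, dot b.ψ (g.E i) -
      ∑ j, (phi (g.S j) (∑ i ∈ I, g.E i) : ℝ) -
      ∑ k, b.b k * (phi (b.T k) (∑ i ∈ I, g.E i) : ℝ) := by
    rw [la, Pool.Agent.Helper58K9.CI.dot_sum]
  have h7 : ∑ k, b.b k * ∑ i ∈ I, (phi (b.T k) (g.E i) : ℝ) ≤
      ∑ k, b.b k * (phi (b.T k) (∑ i ∈ I, g.E i) : ℝ) :=
    Finset.sum_le_sum fun k _ => mul_le_mul_of_nonneg_left (h3 k) (b.b0 k)
  have h8 : ∑ j : Fin r, ((2 : ℝ) + ∑ i ∈ I, (phi (g.S j) (g.E i) : ℝ)) ≤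
      ∑ j, (phi (g.S j) (∑ i ∈ I, g.E i) : ℝ) :=
    Finset.sum_le_sum fun j _ => by exact_mod_cast h1 j
  rw [Finset.sum_add_distrib, Finset.sum_const, Finset.card_univ, Fintype.card_fin,
    nsmul_eq_mul] at h8
  have h9 : (I.card : ℝ) ≤ d + r := by exact_mod_cast hcard
  have h10 : (r : ℝ) ≤ d := by linarith
  exact_mod_cast h10

end Pool.Agent.H895.ND
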