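import Mathlib
import Pool.Graph.R_pool_sql_team_seeded_1e53cb71.Helper43K9.CI.Asm
import Pool.Graph.R_pool_sql_team_seeded_1e53cb71.Helper58K9.CI.Step

/-!
# Combinatorics of the toric log discrepancies of log canonical nondegenerate complete intersections

`la w = ψ · w - ∑_j φ_{S j} (w) - ∑_k b_k φ_{T k} (w)`.
-/

set_option autoImplicit false
set_option linter.unusedVariables false
set_option linter.unusedSectionVars false

namespace Pool.Agent.H895.ND

open Pool.Agent.Helper43K9.NH (phi dot Inn phi_spec phi_eq phi_smul dot_add dot_smul)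
open Pool.Agent.TH165.ACC (pr Cn pr_add pr_zero pr_neg pr_sub pr_smul pr_smul_right Coord coord_pr)
open Pool.Agent.Helper58K9.CI (VJ RadoC ev rv ev_rv pr_add_right pr_sum_right dot_sum exists_min
  rank_min)
open Module

variable {n r s : ℕ}

/-- The log discrepancy `ψ · w - ∑_j φ_{S j} (w) - ∑_k b_k φ_{T k} (w)` -/
noncomputable def la (ψ : Fin n → ℝ) (S : Fin r → Finset (Fin n → ℤ))
    (T : Fin s → Finset (Fin n → ℤ)) (b : Fin s → ℝ) (w : Fin n → ℤ) : ℝ :=
  dot ψ w - ∑ j, (phi (S j) w : ℝ) - ∑ k, b k * (phi (T k) w : ℝ)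

theorem phi_add_le {S : Finset (Fin n → ℤ)} (hS : S.Nonempty) (u u' : Fin n → ℤ) :
    phi S u + phi S u' ≤ phi S (u + u') := by
  obtain ⟨⟨m, hm, h1⟩, -⟩ := phi_spec hS (u + u')
  rw [← h1, pr_add_right]
  exact add_le_add ((phi_spec hS u).2 m hm) ((phi_spec hS u').2 m hm)

theorem phi_zero {S : Finset (Fin n → ℤ)} (hS : S.Nonempty) : phi S 0 = 0 := by
  obtain ⟨⟨m, hm, h1⟩, -⟩ := phi_spec hS 0
  rw [← h1]
  simp [pr]

section la

variable {ψ : Fin n → ℝ} {S : Fin r → Finset (Fin n → ℤ)} {T : Fin s → Finset (Fin n → ℤ)}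
  {b : Fin s → ℝ}

theorem la_add_le (hS : ∀ j, (S j).Nonempty) (hT : ∀ k, (T k).Nonempty) (hb : ∀ k, 0 ≤ b k)
    (u u' : Fin n → ℤ) : la ψ S T b (u + u') ≤ la ψ S T b u + la ψ S T b u' := by
  have h1 : ∑ j, (phi (S j) u : ℝ) + ∑ j, (phi (S j) u' : ℝ) ≤ ∑ j, (phi (S j) (u + u') : ℝ) := by
    rw [← Finset.sum_add_distrib]
    refine Finset.sum_le_sum fun j _ => ?_
    exact_mod_cast phi_add_le (hS j) u u'
  have h2 : ∑ k, b k * (phi (T k) u : ℝ) + ∑ k, b k * (phi (T k) u' : ℝ) ≤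
      ∑ k, b k * (phi (T k) (u + u') : ℝ) := by
    rw [← Finset.sum_add_distrib]
    refine Finset.sum_le_sum fun k _ => ?_
    rw [← mul_add]
    refine mul_le_mul_of_nonneg_left ?_ (hb k)
    exact_mod_cast phi_add_le (hT k) u u'
  rw [la, la, la, dot_add]
  linarith

theorem la_smul (hS : ∀ j, (S j).Nonempty) (hT : ∀ k, (T k).Nonempty) {k : ℤ} (hk : 0 ≤ k)
    (w : Fin n → ℤ) : la ψ S T b (k • w) = k * la ψ S T b w := by
  have h1 : ∀ j, (phi (S j) (k • w) : ℝ) = k * (phi (S j) w : ℝ) := fun j => by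
    rw [phi_smul (hS j) hk]; push_cast; rfl
  have h2 : ∀ j, (phi (T j) (k • w) : ℝ) = k * (phi (T j) w : ℝ) := fun j => by
    rw [phi_smul (hT j) hk]; push_cast; rfl
  rw [la, la, dot_smul]
  simp only [h1, h2]
  have h3 : ∑ x, b x * ((k : ℝ) * (phi (T x) w : ℝ)) = k * ∑ x, b x * (phi (T x) w : ℝ) := by
    rw [Finset.mul_sum]
    exact Finset.sum_congr rfl fun i _ => by ring
  rw [h3, ← Finset.mul_sum]
  ring

theorem la_zero (hS : ∀ j, (S j).Nonempty) (hT : ∀ k, (T k).Nonempty) : la ψ S T b 0 = 0 := by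
  have := la_smul (ψ := ψ) (b := b) hS hT (k := 0) le_rfl (0 : Fin n → ℤ)
  simpa using this

/-- the growth along a set of vectors -/
theorem la_step {N : ℕ} (hS : ∀ j, (S j).Nonempty) (hT : ∀ k, (T k).Nonempty) (hb : ∀ k, 0 ≤ b k)
    (ρ : Fin N → Fin n → ℤ) (u : Fin n → ℤ) (I : Finset (Fin N))
    (hI : ∑ j, (phi (S j) u : ℝ) + ∑ i ∈ I, ∑ j, (phi (S j) (ρ i) : ℝ) + I.card ≤
      ∑ j, (phi (S j) (u + ∑ i ∈ I, ρ i) : ℝ)) :
    la ψ S T b (u + ∑ i ∈ I, ρ i) ≤ la ψ S T b u + ∑ i ∈ I, (la ψ S T b (ρ i) - 1) := by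
  classical
  have h2 : ∑ k, b k * (phi (T k) u : ℝ) + ∑ i ∈ I, ∑ k, b k * (phi (T k) (ρ i) : ℝ) ≤
      ∑ k, b k * (phi (T k) (u + ∑ i ∈ I, ρ i) : ℝ) := by
    rw [Finset.sum_comm, ← Finset.sum_add_distrib]
    refine Finset.sum_le_sum fun k _ => ?_
    rw [← Finset.mul_sum, ← mul_add]
    refine mul_le_mul_of_nonneg_left ?_ (hb k)
    have key : ∀ I : Finset (Fin N), phi (T k) u + ∑ i ∈ I, phi (T k) (ρ i) ≤
        phi (T k) (u + ∑ i ∈ I, ρ i) := by
      intro I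
      induction I using Finset.induction_on with
      | empty => simp
      | insert a I ha ih =>
        rw [Finset.sum_insert ha, Finset.sum_insert ha]
        have h3 := phi_add_le (hT k) (u + ∑ i ∈ I, ρ i) (ρ a)
        have h4 : u + (ρ a + ∑ i ∈ I, ρ i) = u + ∑ i ∈ I, ρ i + ρ a := by abel
        rw [h4]
        omega
    exact_mod_cast key I
  have h3 : ∑ i ∈ I, (la ψ S T b (ρ i) - 1) = ∑ i ∈ I, dot ψ (ρ i) -
      ∑ i ∈ I, ∑ j, (phi (S j) (ρ i) : ℝ) - ∑ i ∈ I, ∑ k, b k * (phi (T k) (ρ i) : ℝ) -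
      I.card := by
    simp only [la, Finset.sum_sub_distrib, Finset.sum_const, nsmul_eq_mul, mul_one]
  rw [h3]
  unfold la
  rw [dot_add, dot_sum]
  linarith

/-- **Well quasi-order.** Every sequence of lattice vectors has two members such that all the
functions `φ` are additive along them. -/
theorem exists_pair {κ : Type} [Finite κ] (U : κ → Finset (Fin n → ℤ)) (hU : ∀ x, (U x).Nonempty)
    (u : ℕ → Fin n → ℤ) : ∃ k l, k < l ∧ ∀ x, phi (U x) (u l) = phi (U x) (u k) +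
      phi (U x) (u l - u k) := by
  classical
  let ι : Type := Σ x : κ, {m // m ∈ U x}
  let f : ℕ → ι → ℕ := fun k i => (pr i.2.1 (u k) - phi (U i.1) (u k)).toNat
  have hf : ∀ k i, (f k i : ℤ) = pr i.2.1 (u k) - phi (U i.1) (u k) := by
    intro k i
    have := (phi_spec (hU i.1) (u k)).2 i.2.1 i.2.2
    simp only [f]
    omega
  obtain ⟨k, l, hkl, hle⟩ := (wellQuasiOrdered_le (α := ι → ℕ)) f
  refine ⟨k, l, hkl, fun x => ?_⟩
  obtain ⟨⟨m, hm, h1⟩, h2⟩ := phi_spec (hU x) (u l)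
  have hml : (f l ⟨x, m, hm⟩ : ℤ) = 0 := by rw [hf]; simp [h1]
  have hmk : (f k ⟨x, m, hm⟩ : ℤ) = 0 := by
    have h9 : f k ⟨x, m, hm⟩ ≤ f l ⟨x, m, hm⟩ := hle ⟨x, m, hm⟩
    omega
  rw [hf] at hmk
  simp only at hmk
  have h3 : phi (U x) (u l - u k) = pr m (u l - u k) := by
    apply phi_eq ⟨m, hm, rfl⟩
    intro m' hm'
    have h4 : ((f k ⟨x, m', hm'⟩ : ℕ) : ℤ) ≤ f l ⟨x, m', hm'⟩ := by exact_mod_cast hle ⟨x, m', hm'⟩
    rw [hf, hf] at h4
    simp only at h4
    have h5 : ∀ q : Fin n → ℤ, pr q (u l - u k) = pr q (u l) - pr q (u k) := by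
      intro q
      have := pr_add_right q (u l - u k) (u k)
      rw [sub_add_cancel] at this
      omega
    rw [h5, h5]
    omega
  have h5 : pr m (u l - u k) = pr m (u l) - pr m (u k) := by
    have := pr_add_right m (u l - u k) (u k)
    rw [sub_add_cancel] at this
    omega
  rw [h3, h5]
  omega

/-- the log discrepancy is additive along a pair of members of every sequence -/
theorem exists_pair_la (hS : ∀ j, (S j).Nonempty) (hT : ∀ k, (T k).Nonempty)
    (u : ℕ → Fin n → ℤ) :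
    ∃ k l, k < l ∧ la ψ S T b (u l) = la ψ S T b (u k) + la ψ S T b (u l - u k) := by
  obtain ⟨k, l, hkl, h⟩ := exists_pair (Sum.elim S T) (by rintro (x | x); exacts [hS x, hT x]) u
  refine ⟨k, l, hkl, ?_⟩
  have h1 : ∀ j, (phi (S j) (u l) : ℝ) = phi (S j) (u k) + phi (S j) (u l - u k) := fun j => by
    exact_mod_cast h (Sum.inl j)
  have h2 : ∀ j, (phi (T j) (u l) : ℝ) = phi (T j) (u k) + phi (T j) (u l - u k) := fun j => by
    exact_mod_cast h (Sum.inr j)
  have h3 : dot ψ (u l) = dot ψ (u k) + dot ψ (u l - u k) := by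
    rw [← dot_add]
    congr 1
    abel
  unfold la
  simp only [h1, h2, h3, mul_add, Finset.sum_add_distrib]
  ring

end la

end Pool.Agent.H895.ND
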