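import Pool.Agent.H895.ND.Step

/-!
# Simplicial cones adapted to the log canonical places

Let `la ≥ 0` on the cone. An interior lattice vector `w` lies in the relative interior of a simplicial
cone spanned by edges `E_i` and by lattice vectors `A` with `la A = 0`, such that no nonzero lattice
vector `a` in the cone spanned by the edges among them has `la a = 0`. If `w` satisfies the condition
of Rado and `la w` is the least value of `la` at the interior lattice vectors with this condition,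
then it is the least value of `la` at all lattice vectors in the relative interior of this simplicial
cone.
-/

set_option autoImplicit false
set_option linter.unusedVariables false
set_option linter.unusedSectionVars false

namespace Pool.Agent.H895.ND

open Pool.Agent.Helper43K9.NH (phi dot Inn phi_spec phi_eq phi_smul dot_add dot_smul)
open Pool.Agent.TH165.ACC (pr Cn pr_add pr_zero pr_neg pr_sub pr_smul pr_smul_right Coord coord_pr
  DualVec exists_simplex)
open Pool.Agent.Helper58K9.CI (VJ RadoC ev rv ev_rv pr_add_right pr_sum_right dot_sum exists_min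
  rank_min)
open Module

variable {n N r s : ℕ}

/-- `u` is a lattice vector in the cone. -/
def InC (E : Fin N → Fin n → ℤ) (u : Fin n → ℤ) : Prop := ∀ m ∈ Cn E, 0 ≤ pr m u

theorem pr_real (m u : Fin n → ℤ) : (pr m u : ℝ) = ∑ k, (m k : ℝ) * (u k : ℝ) := by
  rw [pr]; push_cast; rfl

/-- the pairing and real combinations -/
theorem pr_comb {ι : Type} [Fintype ι] {ρ : ι → Fin n → ℤ} {c : ι → ℝ} {u : Fin n → ℤ}
    (h : ∀ k, ∑ i, c i * (ρ i k : ℝ) = (u k : ℝ)) (m : Fin n → ℤ) :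
    (pr m u : ℝ) = ∑ i, c i * (pr m (ρ i) : ℝ) := by
  rw [pr_real]
  simp only [pr_real, Finset.mul_sum]
  rw [Finset.sum_comm]
  refine Finset.sum_congr rfl fun k _ => ?_
  rw [← h k, Finset.mul_sum]
  exact Finset.sum_congr rfl fun i _ => by ring

theorem inC_comb {E : Fin N → Fin n → ℤ} {ι : Type} [Fintype ι] {ρ : ι → Fin n → ℤ} {c : ι → ℝ}
    {u : Fin n → ℤ} (h : ∀ k, ∑ i, c i * (ρ i k : ℝ) = (u k : ℝ)) (hc : ∀ i, 0 ≤ c i)
    (hρ : ∀ i, c i ≠ 0 → InC E (ρ i)) : InC E u := by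
  intro m hm
  have h1 : (0 : ℝ) ≤ (pr m u : ℝ) := by
    rw [pr_comb h]
    refine Finset.sum_nonneg fun i _ => ?_
    by_cases h0 : c i = 0
    · rw [h0, zero_mul]
    · exact mul_nonneg (hc i) (by exact_mod_cast hρ i h0 m hm)
  exact_mod_cast h1

theorem inC_edge (E : Fin N → Fin n → ℤ) (i : Fin N) : InC E (E i) := fun m hm => hm i

theorem InC.of_inn {E : Fin N → Fin n → ℤ} {w : Fin n → ℤ} (h : Inn E w) : InC E w := by
  intro m hm
  by_cases h0 : m = 0
  · rw [h0, pr_zero]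
  · exact (h m hm h0).le

theorem inn_add_inC {E : Fin N → Fin n → ℤ} {w a : Fin n → ℤ} (h : Inn E w) (ha : InC E a) :
    Inn E (w + a) := by
  intro m hm h0
  rw [pr_add_right]
  have := h m hm h0
  have := ha m hm
  omega

section

variable {ψ : Fin n → ℝ} {S : Fin r → Finset (Fin n → ℤ)} {T : Fin s → Finset (Fin n → ℤ)}
  {b : Fin s → ℝ} {E : Fin N → Fin n → ℤ}

/-- nonnegativity on the whole cone -/
theorem la_nonneg (hS : ∀ j, (S j).Nonempty) (hT : ∀ k, (T k).Nonempty) (hb : ∀ k, 0 ≤ b k)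
    {w : Fin n → ℤ} (hw : Inn E w) (hl : ∀ w, Inn E w → 0 ≤ la ψ S T b w) :
    ∀ a, InC E a → 0 ≤ la ψ S T b a := by
  intro a ha
  by_contra hneg
  push Not at hneg
  obtain ⟨k, hk⟩ := exists_nat_gt (la ψ S T b w / (-la ψ S T b a))
  have h1 : 0 ≤ la ψ S T b (w + (k : ℤ) • a) := by
    refine hl _ (inn_add_inC hw fun m hm => ?_)
    rw [pr_smul_right]
    exact mul_nonneg (by positivity) (ha m hm)
  have h2 := la_add_le (ψ := ψ) hS hT hb w ((k : ℤ) • a)
  rw [la_smul hS hT (by positivity)] at h2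
  rw [div_lt_iff₀ (by linarith)] at hk
  push_cast at h2
  nlinarith

/-- independence after the exchange of one vector -/
theorem linInd_update {ι : Type} [Fintype ι] [DecidableEq ι] {V : Type} [AddCommGroup V]
    [Module ℝ V] {v : ι → V} (hv : LinearIndependent ℝ v) (d : ι → ℝ) {i0 : ι} (h0 : d i0 ≠ 0) :
    LinearIndependent ℝ (Function.update v i0 (∑ i, d i • v i)) := by
  rw [Fintype.linearIndependent_iff] at hv ⊢
  intro g hg
  have h1 : ∑ i, ((if i = i0 then 0 else g i) + g i0 * d i) • v i = 0 := by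
    rw [← hg]
    have h2 : ∀ i, g i • Function.update v i0 (∑ i, d i • v i) i =
        (if i = i0 then g i0 • (∑ i, d i • v i) else 0) + (if i = i0 then 0 else g i) • v i := by
      intro i
      by_cases hi : i = i0
      · subst hi
        simp
      · simp [hi]
    rw [Finset.sum_congr rfl fun i _ => h2 i, Finset.sum_add_distrib, Finset.sum_ite_eq' Finset.univ]
    simp only [Finset.mem_univ, if_true, add_smul, Finset.sum_add_distrib, Finset.smul_sum,
      smul_smul]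
    rw [add_comm]
  have h2 := hv _ h1
  have h3 : g i0 = 0 := by
    have := h2 i0
    simp only [if_true, zero_add] at this
    exact (mul_eq_zero.1 this).resolve_right h0
  intro i
  by_cases hi : i = i0
  · rw [hi, h3]
  · have := h2 i
    rw [if_neg hi, h3, zero_mul, add_zero] at this
    exact this

/-- the adapted simplicial cone: the induction -/
theorem exists_cone_aux (hS : ∀ j, (S j).Nonempty) (hT : ∀ k, (T k).Nonempty)
    (hla : ∀ a, InC E a → 0 ≤ la ψ S T b a) (w : Fin n → ℤ) (k : ℕ) :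
    ∀ (ι : Type) [Fintype ι] (ρ : ι → Fin n → ℤ) (c : ι → ℝ) (I : Finset ι), I.card = k →
      (∀ i, 0 < c i) → (∀ l, ∑ i, c i * (ρ i l : ℝ) = (w l : ℝ)) →
      LinearIndependent ℝ (fun i (l : Fin n) => (ρ i l : ℝ)) → (∀ i ∈ I, ∃ e, ρ i = E e) →
      (∀ i ∉ I, la ψ S T b (ρ i) = 0 ∧ InC E (ρ i)) →
      ∃ (ι' : Type) (_ : Fintype ι') (ρ' : ι' → Fin n → ℤ) (c' : ι' → ℝ) (I' : Finset ι'),
        (∀ i, 0 < c' i) ∧ (∀ l, ∑ i, c' i * (ρ' i l : ℝ) = (w l : ℝ)) ∧
        LinearIndependent ℝ (fun i (l : Fin n) => (ρ' i l : ℝ)) ∧ (∀ i ∈ I', ∃ e, ρ' i = E e) ∧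
        (∀ i ∉ I', la ψ S T b (ρ' i) = 0 ∧ InC E (ρ' i)) ∧
        ∀ (a : Fin n → ℤ) (d : ι' → ℝ), (∀ i, 0 ≤ d i) → (∀ i ∉ I', d i = 0) →
          (∀ l, ∑ i, d i * (ρ' i l : ℝ) = (a l : ℝ)) → a ≠ 0 → 0 < la ψ S T b a := by
  classical
  induction k using Nat.strong_induction_on with
  | _ k ih =>
  intro ι _ ρ c I hIk hc hw hli hE hA
  by_cases hP : ∀ (a : Fin n → ℤ) (d : ι → ℝ), (∀ i, 0 ≤ d i) → (∀ i ∉ I, d i = 0) →
          (∀ l, ∑ i, d i * (ρ i l : ℝ) = (a l : ℝ)) → a ≠ 0 → 0 < la ψ S T b a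
  · exact ⟨ι, inferInstance, ρ, c, I, hc, hw, hli, hE, hA, hP⟩
  push Not at hP
  obtain ⟨a, d, hd0, hdI, hda, ha0, hla0⟩ := hP
  have haC : InC E a := inC_comb hda hd0 fun i hi => by
    have : i ∈ I := by
      by_contra h
      exact hi (hdI i h)
    obtain ⟨e, he⟩ := hE i this
    rw [he]
    exact inC_edge E e
  have hlaa : la ψ S T b a = 0 := le_antisymm hla0 (hla a haC)
  obtain ⟨i1, hi1⟩ : ∃ i, 0 < d i := by
    by_contra h
    push Not at h
    apply ha0
    funext l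
    have h1 := hda l
    have h2 : ∀ i, d i = 0 := fun i => le_antisymm (h i) (hd0 i)
    simp only [h2, zero_mul, Finset.sum_const_zero] at h1
    exact_mod_cast h1.symm
  obtain ⟨i0, hi0, hmin⟩ := (Finset.univ.filter fun i => 0 < d i).exists_min_image
      (fun i => c i / d i) ⟨i1, by simp [hi1]⟩
  have hd : 0 < d i0 := (Finset.mem_filter.1 hi0).2
  have hi0I : i0 ∈ I := by
    by_contra h
    rw [hdI i0 h] at hd
    exact lt_irrefl _ hd
  set ε := c i0 / d i0 with hε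
  have hε0 : 0 < ε := div_pos (hc i0) hd
  have hge : ∀ i, 0 ≤ c i - ε * d i := by
    intro i
    rcases lt_or_ge 0 (d i) with h | h
    · have := hmin i (by simp [h])
      have h2 : ε * d i ≤ c i := by
        rw [← le_div_iff₀ h]
        exact this
      linarith
    · have := mul_nonpos_of_nonneg_of_nonpos hε0.le h
      have := hc i
      linarith
  have hei0 : c i0 - ε * d i0 = 0 := by
    rw [hε, div_mul_cancel₀ _ hd.ne', sub_self]
  let ρ1 : ι → Fin n → ℤ := Function.update ρ i0 a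
  let c1 : ι → ℝ := Function.update (fun i => c i - ε * d i) i0 ε
  have hρ10 : ρ1 i0 = a := Function.update_self _ _ _
  have hρ1 : ∀ i, i ≠ i0 → ρ1 i = ρ i := fun i hi => Function.update_of_ne hi _ _
  have hc10 : c1 i0 = ε := Function.update_self _ _ _
  have hc1 : ∀ i, i ≠ i0 → c1 i = c i - ε * d i := fun i hi => Function.update_of_ne hi _ _
  have hc1n : ∀ i, 0 ≤ c1 i := by
    intro i
    by_cases hi : i = i0
    · rw [hi, hc10]; exact hε0.le
    · rw [hc1 i hi]; exact hge i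
  have hsum1 : ∀ l, ∑ i, c1 i * (ρ1 i l : ℝ) = (w l : ℝ) := by
    intro l
    have h1 : ∀ i, c1 i * (ρ1 i l : ℝ) = (if i = i0 then ε * (a l : ℝ) else 0) +
        (c i * (ρ i l : ℝ) - ε * (d i * (ρ i l : ℝ))) := by
      intro i
      by_cases hi : i = i0
      · subst hi
        rw [hc10, hρ10, if_pos rfl]
        have : c i * (ρ i l : ℝ) - ε * (d i * (ρ i l : ℝ)) = (c i - ε * d i) * (ρ i l : ℝ) := by
          ring
        rw [this, hei0]
        ring
      · rw [hc1 i hi, hρ1 i hi, if_neg hi]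
        ring
    rw [Finset.sum_congr rfl fun i _ => h1 i, Finset.sum_add_distrib,
      Finset.sum_ite_eq' Finset.univ, Finset.sum_sub_distrib, ← Finset.mul_sum, hw, hda]
    simp
  have hli1 : LinearIndependent ℝ (fun i (l : Fin n) => (ρ1 i l : ℝ)) := by
    have h1 := linInd_update hli d hd.ne'
    have h2 : (fun i (l : Fin n) => (ρ1 i l : ℝ)) = Function.update
        (fun i (l : Fin n) => (ρ i l : ℝ)) i0 (∑ i, d i • fun (l : Fin n) => (ρ i l : ℝ)) := by
      funext i l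
      by_cases hi : i = i0
      · subst hi
        rw [Function.update_self, hρ10, ← hda l, Finset.sum_apply]
        rfl
      · rw [Function.update_of_ne hi, hρ1 i hi]
    rw [h2]
    exact h1
  -- the restriction to the support
  let I1 : Finset {i // c1 i ≠ 0} := Finset.univ.filter fun x => x.1 ∈ I.erase i0
  have hcard : I1.card < k := by
    have h1 : (I1.image Subtype.val).card = I1.card :=
      Finset.card_image_of_injective _ Subtype.val_injective
    have h2 : I1.image Subtype.val ⊆ I.erase i0 := by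
      intro x hx
      obtain ⟨y, hy, rfl⟩ := Finset.mem_image.1 hx
      exact (Finset.mem_filter.1 hy).2
    have h3 := Finset.card_le_card h2
    have h4 := Finset.card_erase_lt_of_mem hi0I
    omega
  refine ih I1.card hcard {i // c1 i ≠ 0} (fun x => ρ1 x.1) (fun x => c1 x.1) I1 rfl ?_ ?_ ?_ ?_ ?_
  · exact fun x => lt_of_le_of_ne (hc1n x.1) (Ne.symm x.2)
  · intro l
    rw [← hsum1 l, ← Finset.sum_subtype (Finset.univ.filter fun i => c1 i ≠ 0) (by simp)
      fun i => c1 i * (ρ1 i l : ℝ)]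
    refine Finset.sum_filter_of_ne fun i _ h => ?_
    exact left_ne_zero_of_mul h
  · exact hli1.comp _ Subtype.val_injective
  · intro x hx
    have h1 := Finset.mem_of_mem_erase (Finset.mem_filter.1 hx).2
    have h2 : x.1 ≠ i0 := Finset.ne_of_mem_erase (Finset.mem_filter.1 hx).2
    obtain ⟨e, he⟩ := hE _ h1
    exact ⟨e, by rw [hρ1 _ h2, he]⟩
  · intro x hx
    by_cases h2 : x.1 = i0
    · rw [h2, hρ10]
      exact ⟨hlaa, haC⟩
    · rw [hρ1 _ h2]
      refine hA _ fun h3 => hx ?_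
      exact Finset.mem_filter.2 ⟨Finset.mem_univ _, Finset.mem_erase.2 ⟨h2, h3⟩⟩

/-- **The adapted simplicial cone.** -/
theorem exists_cone (hS : ∀ j, (S j).Nonempty) (hT : ∀ k, (T k).Nonempty)
    (hla : ∀ a, InC E a → 0 ≤ la ψ S T b a) {w : Fin n → ℤ} (hw : InC E w) :
    ∃ (p : ℕ) (ρ : Fin p → Fin n → ℤ) (c : Fin p → ℝ) (I : Finset (Fin p)),
        (∀ i, 0 < c i) ∧ Coord ρ c w ∧
        LinearIndependent ℝ (fun i (l : Fin n) => (ρ i l : ℝ)) ∧ (∀ i ∈ I, ∃ e, ρ i = E e) ∧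
        (∀ i ∉ I, la ψ S T b (ρ i) = 0 ∧ InC E (ρ i)) ∧
        ∀ (a : Fin n → ℤ) (d : Fin p → ℝ), (∀ i, 0 ≤ d i) → (∀ i ∉ I, d i = 0) →
          (∀ l, ∑ i, d i * (ρ i l : ℝ) = (a l : ℝ)) → a ≠ 0 → 0 < la ψ S T b a := by
  classical
  obtain ⟨q, e, c, hc, hco, D, hD⟩ := exists_simplex hw
  have hco' : ∀ l, ∑ i, c i * (E (e i) l : ℝ) = (w l : ℝ) := hco
  have hli : LinearIndependent ℝ (fun i (l : Fin n) => (E (e i) l : ℝ)) := by
    rw [Fintype.linearIndependent_iff]
    intro g hg i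
    obtain ⟨Q, hQ⟩ := hD.2 i
    have h1 : ∀ k, ∑ j, g j * (E (e j) k : ℝ) = ((0 : Fin n → ℤ) k : ℝ) := by
      intro k
      have := congrFun hg k
      rw [Finset.sum_apply] at this
      simpa using this
    have h2 := pr_comb h1 Q
    rw [Finset.sum_congr rfl fun j _ => by rw [hQ j]] at h2
    have h3 : pr Q (0 : Fin n → ℤ) = 0 := by simp [pr]
    rw [h3] at h2
    simp only [Int.cast_ite, Int.cast_zero, mul_ite, mul_zero, Finset.sum_ite_eq',
      Finset.mem_univ, if_true] at h2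
    have hD0 : ((D : ℤ) : ℝ) ≠ 0 := by exact_mod_cast hD.1.ne'
    exact (mul_eq_zero.1 h2.symm).resolve_right hD0
  obtain ⟨ι, _, ρ, c', I, h1, h2, h3, h4, h5, h6⟩ := exists_cone_aux (ψ := ψ) (b := b) hS hT hla w
    _ (Fin q) (fun i => E (e i)) c Finset.univ rfl hc hco' hli (fun i _ => ⟨e i, rfl⟩)
    (fun i hi => absurd (Finset.mem_univ i) hi)
  let φ : Fin (Fintype.card ι) ≃ ι := (Fintype.equivFin _).symm
  refine ⟨Fintype.card ι, fun i => ρ (φ i), fun i => c' (φ i), I.map φ.symm.toEmbedding,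
    fun i => h1 _, fun l => ?_, h3.comp φ φ.injective, ?_, ?_, ?_⟩
  · rw [φ.sum_comp fun i => c' i * (ρ i l : ℝ), h2]
  · intro i hi
    obtain ⟨j, hj, rfl⟩ := Finset.mem_map.1 hi
    obtain ⟨e, he⟩ := h4 j hj
    exact ⟨e, by simpa using he⟩
  · intro i hi
    apply h5
    intro h7
    exact hi (Finset.mem_map.2 ⟨φ i, h7, by simp⟩)
  · intro a d hd0 hdI hda ha
    refine h6 a (fun i => d (φ.symm i)) (fun i => hd0 _) (fun i hi => ?_) (fun l => ?_) ha
    · apply hdI
      intro h7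
      obtain ⟨j, hj, h8⟩ := Finset.mem_map.1 h7
      have : j = i := φ.symm.injective h8
      rw [this] at hj
      exact hi hj
    · rw [← hda l, ← φ.sum_comp fun i => d (φ.symm i) * (ρ i l : ℝ)]
      simp

/-- **The chain on the adapted cone.** -/
theorem chain (hS : ∀ j, (S j).Nonempty) (hT : ∀ k, (T k).Nonempty) (hb : ∀ k, 0 ≤ b k)
    (hla : ∀ a, InC E a → 0 ≤ la ψ S T b a) {p : ℕ} {ρ : Fin p → Fin n → ℤ} {c : Fin p → ℝ}
    {I : Finset (Fin p)} {w : Fin n → ℤ} (hc : ∀ i, 0 < c i) (hco : Coord ρ c w)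
    (hli : LinearIndependent ℝ (fun i (l : Fin n) => (ρ i l : ℝ))) (hρC : ∀ i, InC E (ρ i))
    (hρ1 : ∀ i, la ψ S T b (ρ i) ≤ 1) (hIA : ∀ i ∉ I, la ψ S T b (ρ i) = 0)
    (hP : ∀ (a : Fin n → ℤ) (d : Fin p → ℝ), (∀ i, 0 ≤ d i) → (∀ i ∉ I, d i = 0) →
          (∀ l, ∑ i, d i * (ρ i l : ℝ) = (a l : ℝ)) → a ≠ 0 → 0 < la ψ S T b a)
    (hR : RadoC S w) {u0 : Fin n → ℤ} {d0 : Fin p → ℝ} (hd0 : ∀ i, 0 < d0 i)
    (hu0 : Coord ρ d0 u0) :
    ∃ (u : Fin n → ℤ) (d : Fin p → ℝ), (∀ i, d0 i ≤ d i) ∧ Coord ρ d u ∧ RadoC S u ∧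
      la ψ S T b u ≤ la ψ S T b u0 := by
  classical
  by_contra hcon
  push Not at hcon
  -- the vectors of the chain
  let X : Type := {u : Fin n → ℤ // (∃ d : Fin p → ℝ, (∀ i, d0 i ≤ d i) ∧ Coord ρ d u) ∧
    la ψ S T b u ≤ la ψ S T b u0}
  have hstep : ∀ x : X, ∃ (y : X) (I : Finset (Fin p)), I.Nonempty ∧ y.1 = x.1 + ∑ i ∈ I, ρ i ∧
      la ψ S T b y.1 ≤ la ψ S T b x.1 + ∑ i ∈ I, (la ψ S T b (ρ i) - 1) := by
    rintro ⟨u, ⟨d, hd, hu⟩, hlt⟩
    have hnR : ¬ RadoC S u := fun h => absurd (hcon u d hd hu h) (not_lt.2 hlt)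
    have hdp : ∀ i, 0 < d i := fun i => (hd0 i).trans_le (hd i)
    obtain ⟨J, hJ, hJ'⟩ := step ρ S hS hc hco hdp hu hR hnR
    have h1 := la_step (ψ := ψ) hS hT hb ρ u J hJ'
    have h2 : ∑ i ∈ J, (la ψ S T b (ρ i) - 1) ≤ 0 :=
      Finset.sum_nonpos fun i _ => by have := hρ1 i; linarith
    refine ⟨⟨u + ∑ i ∈ J, ρ i, ⟨fun i => d i + if i ∈ J then 1 else 0, fun i => ?_, fun k => ?_⟩,
      by linarith⟩, J, hJ, rfl, h1⟩
    · have := hd i
      change d0 i ≤ d i + if i ∈ J then (1 : ℝ) else 0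
      split_ifs <;> linarith
    · have h3 := hu k
      simp only [add_mul, Finset.sum_add_distrib, ite_mul, one_mul, zero_mul, Finset.sum_ite_mem,
        Finset.univ_inter, Pi.add_apply, Finset.sum_apply, Int.cast_add, Int.cast_sum]
      rw [h3]
  choose nx Ix hne hnx hlx using hstep
  let x0 : X := ⟨u0, ⟨d0, fun i => le_rfl, hu0⟩, le_rfl⟩
  let seq : ℕ → X := fun k => nx^[k] x0
  have hseq : ∀ k, seq (k + 1) = nx (seq k) := fun k => Function.iterate_succ_apply' _ _ _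
  -- differences
  have hdiff : ∀ k l, k < l → ∃ c' : Fin p → ℕ, (∃ i, 0 < c' i) ∧
      (∀ q : Fin n, ((seq l).1 - (seq k).1) q = ∑ i, (c' i : ℤ) * ρ i q) ∧
      la ψ S T b (seq l).1 ≤ la ψ S T b (seq k).1 + ∑ i, (c' i : ℝ) * (la ψ S T b (ρ i) - 1) := by
    intro k l hkl
    induction l, hkl using Nat.le_induction with
    | base =>
      refine ⟨fun i => if i ∈ Ix (seq k) then 1 else 0, ?_, fun q => ?_, ?_⟩
      · obtain ⟨i, hi⟩ := hne (seq k)
        exact ⟨i, by simp [hi]⟩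
      · rw [hseq, hnx]
        simp only [Pi.sub_apply, Pi.add_apply, Finset.sum_apply, Nat.cast_ite, Nat.cast_one,
          Nat.cast_zero, ite_mul, one_mul, zero_mul, Finset.sum_ite_mem, Finset.univ_inter]
        ring
      · rw [hseq]
        have := hlx (seq k)
        simpa only [Nat.cast_ite, Nat.cast_one, Nat.cast_zero, ite_mul, one_mul, zero_mul,
          Finset.sum_ite_mem, Finset.univ_inter] using this
    | succ l hkl ih =>
      obtain ⟨c', ⟨i1, hi1⟩, h1, h2⟩ := ih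
      refine ⟨fun i => c' i + if i ∈ Ix (seq l) then 1 else 0, ⟨i1, by positivity⟩,
        fun q => ?_, ?_⟩
      · have h3 := h1 q
        rw [hseq, hnx]
        simp only [Pi.sub_apply, Pi.add_apply, Finset.sum_apply, Nat.cast_add, Nat.cast_ite,
          Nat.cast_one, Nat.cast_zero, add_mul, Finset.sum_add_distrib, ite_mul, one_mul, zero_mul,
          Finset.sum_ite_mem, Finset.univ_inter] at h3 ⊢
        omega
      · rw [hseq]
        have h3 := hlx (seq l)
        simp only [Nat.cast_add, Nat.cast_ite, Nat.cast_one, Nat.cast_zero, add_mul,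
          Finset.sum_add_distrib, ite_mul, one_mul, zero_mul, Finset.sum_ite_mem,
          Finset.univ_inter]
        linarith
  obtain ⟨k, l, hkl, hadd⟩ := exists_pair_la (ψ := ψ) (b := b) hS hT fun k => (seq k).1
  obtain ⟨c', ⟨i1, hi1⟩, hq, hle⟩ := hdiff k l hkl
  have hsum : ∀ q, ∑ i, (c' i : ℝ) * (ρ i q : ℝ) = (((seq l).1 - (seq k).1) q : ℝ) := by
    intro q
    rw [hq q]
    push_cast
    rfl
  have haC : InC E ((seq l).1 - (seq k).1) := inC_comb hsum (fun i => Nat.cast_nonneg _)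
    fun i _ => hρC i
  have ha0 := hla _ haC
  have h1 : la ψ S T b ((seq l).1 - (seq k).1) ≤
      ∑ i, (c' i : ℝ) * (la ψ S T b (ρ i) - 1) := by linarith
  have hterm : ∀ i ∈ Finset.univ, (c' i : ℝ) * (la ψ S T b (ρ i) - 1) ≤ 0 := fun i _ =>
    mul_nonpos_of_nonneg_of_nonpos (Nat.cast_nonneg _) (by have := hρ1 i; linarith)
  have h2 : ∑ i, (c' i : ℝ) * (la ψ S T b (ρ i) - 1) = 0 :=
    le_antisymm (Finset.sum_nonpos hterm) (ha0.trans h1)
  have h3 := (Finset.sum_eq_zero_iff_of_nonpos hterm).1 h2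
  have h4 : ∀ i ∉ I, (c' i : ℝ) = 0 := by
    intro i hi
    have h5 := h3 i (Finset.mem_univ _)
    rw [hIA i hi] at h5
    linarith
  have h5 : (seq l).1 - (seq k).1 ≠ 0 := by
    intro h0
    have h6 : ∑ i, (c' i : ℝ) • (fun q : Fin n => (ρ i q : ℝ)) = 0 := by
      funext q
      rw [Finset.sum_apply]
      have := hsum q
      rw [h0] at this
      simpa using this
    have h7 := Fintype.linearIndependent_iff.1 hli _ h6 i1
    have h8 : (0 : ℝ) < (c' i1 : ℝ) := by exact_mod_cast hi1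
    linarith
  have h6 := hP _ _ (fun i => Nat.cast_nonneg (c' i)) h4 hsum h5
  linarith

/-- a lattice vector in the relative interior of the subcone lies in the interior of the cone -/
theorem inn_of_coord {p : ℕ} {ρ : Fin p → Fin n → ℤ} {c d : Fin p → ℝ} {w u : Fin n → ℤ}
    (hw : Inn E w) (hc : ∀ i, 0 < c i) (hco : Coord ρ c w) (hρC : ∀ i, InC E (ρ i))
    (hd : ∀ i, 0 < d i) (hu : Coord ρ d u) : Inn E u := by
  intro m hm hm0
  have h1 := hw m hm hm0
  have h2 : (0 : ℝ) < (pr m w : ℝ) := by exact_mod_cast h1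
  rw [coord_pr hco] at h2
  obtain ⟨i, -, hi⟩ := Finset.exists_lt_of_sum_lt (s := Finset.univ) (f := fun _ => (0 : ℝ))
          (g := fun i => c i * (pr m (ρ i) : ℝ)) (by simpa using h2)
  have h3 : (0 : ℝ) < (pr m u : ℝ) := by
    rw [coord_pr hu]
    refine Finset.sum_pos' (fun j _ => mul_nonneg (hd j).le (by exact_mod_cast hρC j m hm))
      ⟨i, Finset.mem_univ _, mul_pos (hd i) ?_⟩
    exact (mul_pos_iff_of_pos_left (hc i)).1 hi
  exact_mod_cast h3

/-- **The least value on the adapted cone.** -/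
theorem min_cone (hS : ∀ j, (S j).Nonempty) (hT : ∀ k, (T k).Nonempty) (hb : ∀ k, 0 ≤ b k)
    (hE : ∀ i, la ψ S T b (E i) ≤ 1) (hl : ∀ w, Inn E w → 0 ≤ la ψ S T b w) {w : Fin n → ℤ}
    (hw : Inn E w) (hR : RadoC S w)
    (hmin : ∀ u, Inn E u → RadoC S u → la ψ S T b w ≤ la ψ S T b u) :
    ∃ (p : ℕ) (ρ : Fin p → Fin n → ℤ) (c : Fin p → ℝ), (∀ i, 0 < c i) ∧ Coord ρ c w ∧
        LinearIndependent ℝ (fun i (l : Fin n) => (ρ i l : ℝ)) ∧
        (∀ i, (∃ e, ρ i = E e) ∨ la ψ S T b (ρ i) = 0) ∧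
        ∀ (u : Fin n → ℤ) (d : Fin p → ℝ), (∀ i, 0 < d i) → Coord ρ d u →
          la ψ S T b w ≤ la ψ S T b u := by
  classical
  have hla := la_nonneg hS hT hb hw hl
  obtain ⟨p, ρ, c, I, hc, hco, hli, hIE, hIA, hP⟩ := exists_cone hS hT hla (InC.of_inn hw)
  refine ⟨p, ρ, c, hc, hco, hli, fun i => ?_, ?_⟩
  · by_cases hi : i ∈ I
    · exact Or.inl (hIE i hi)
    · exact Or.inr (hIA i hi).1
  have hρC : ∀ i, InC E (ρ i) := by
    intro i
    by_cases hi : i ∈ I
    · obtain ⟨e, he⟩ := hIE i hi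
      rw [he]
      exact inC_edge E e
    · exact (hIA i hi).2
  have hρ1 : ∀ i, la ψ S T b (ρ i) ≤ 1 := by
    intro i
    by_cases hi : i ∈ I
    · obtain ⟨e, he⟩ := hIE i hi
      rw [he]
      exact hE e
    · rw [(hIA i hi).1]
      exact zero_le_one
  intro u0 d0 hd0 hu0
  obtain ⟨u, d, hd, hu, hRu, hle⟩ := chain hS hT hb hla hc hco hli hρC hρ1
    (fun i hi => (hIA i hi).1) hP hR hd0 hu0
  exact (hmin u (inn_of_coord hw hc hco hρC (fun i => (hd0 i).trans_le (hd i)) hu) hRu).trans hle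

end

end Pool.Agent.H895.ND
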