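import Mathlib
import Pool.Agent.H895.ND.Asm
import Pool.Graph.R_pool_sql_team_seeded_1e53cb71.Helper58K9.ET.Asm
import Pool.Graph.R_pool_sql_team_seeded_1e53cb71.Helper58K9.ET.Dens
import Pool.Graph.R_pool_sql_team_seeded_1e53cb71.Helper58K9.ET.Down
import Pool.Graph.R_pool_sql_team_seeded_1e53cb71.Helper58K9.ET.Up
import Pool.Graph.R_pool_sql_team_seeded_1e53cb71.Helper58K9.ET.Extd
import Pool.Graph.R_pool_sql_team_seeded_1e53cb71.Helper58K9.ET.Appr
import Pool.Graph.R_pool_sql_team_seeded_1e53cb71.Helper58K9.ET.Chg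
import Pool.Graph.R_pool_sql_team_seeded_1e53cb71.Helper58K9.ET.Refl

/-!
# The étale local version
-/

set_option autoImplicit false
set_option linter.unusedVariables false
set_option linter.unusedSectionVars false

namespace Pool.Agent.H895.ND

open Pool.Agent.H436R3.Fol Pool.Agent.H436R3.KT Pool.Agent.W497.Mld MvPolynomial
open Pool.Agent.TH165.ACC (pr ex Prim Cn Hs lead part mldsR exists_prim Coord)
open Pool.Agent.Helper43K9.NH (ch AA wt Inn expo phi dot expo_nonempty)
open Pool.Agent.Helper43K9.CI (CIGerm)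
open Pool.Agent.Helper58K9.ET

variable {K M : Type} [Field K] [Algebra ℂ K] [Field M] [Algebra ℂ M]

/-- the log discrepancies agree -/
theorem logDisc_of_etIso {X : AffVar K} {B : EffDiv X} {x : Pt X} {e : LocEq B x} {Y : AffVar M}
    {B' : EffDiv Y} {P : Pt Y} {e' : LocEq B' P} (h : EtIso e e') (a : ℝ) :
    (∃ v, IsOverGerm x v ∧ IsLogDisc e v a) ↔ ∃ v, IsOverGerm P v ∧ IsLogDisc e' v a := by
  obtain ⟨L, _, _, _, _, _, _, S, h, h', T, T', y, hT, hT', rfl, rfl, hag⟩ := h
  have hfr := @frac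
  rw [disc up (down dens frac) dens (extd frac) appr h y T hT e a,
    disc up (down dens frac) dens (extd frac) appr h' y T' hT' e' a]
  constructor
  · rintro ⟨w, hw, n, hn, ha⟩
    obtain ⟨n', hn'⟩ := chg T T' hT.top hT'.top w n hn
    refine ⟨w, hw, n', hn', ?_⟩
    have := hag w hw n n' hn hn'
    rw [ha]
    linarith
  · rintro ⟨w, hw, n', hn', ha⟩
    obtain ⟨n, hn⟩ := chg T' T hT'.top hT.top w n' hn'
    refine ⟨w, hw, n, hn, ?_⟩
    have := hag w hw n n' hn hn'
    rw [ha]
    linarith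

/-- the minimal log discrepancies agree -/
theorem isMld_of_etIso {X : AffVar K} {B : EffDiv X} {x : Pt X} {e : LocEq B x} {Y : AffVar M}
    {B' : EffDiv Y} {P : Pt Y} {e' : LocEq B' P} (h : EtIso e e') (m : ℝ) :
    Pool.Agent.W497.Mld.IsMld e m ↔ Pool.Agent.W497.Mld.IsMld e' m := by
  have key : {a | ∃ v, IsOverGerm x v ∧ IsLogDisc e v a} =
      {a | ∃ v, IsOverGerm P v ∧ IsLogDisc e' v a} := by
    ext a
    exact logDisc_of_etIso h a
  unfold Pool.Agent.W497.Mld.IsMld
  rw [key]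

/-- Every pair is étale locally isomorphic to itself. -/
theorem etIso_refl {X : AffVar K} {B : EffDiv X} {x : Pt X} (e : LocEq B x) : EtIso e e := by
  refine ⟨K, inferInstance, inferInstance, Algebra.id K, inferInstance, Algebra.id K,
    inferInstance, X.R, idEtale X, idEtale X, X.T, X.T, x, ⟨X.top, fun _ _ => rfl⟩,
    ⟨X.top, fun _ _ => rfl⟩, idEtale_im X x, idEtale_im X x, ?_⟩
  intro w _ n n' hn hn'
  rw [hn.unique hn']

end Pool.Agent.H895.ND
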