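import Pool.Agent.H895.ND.Mem

/-!
# A rational maximum

The greatest value of `- la x / K` at the lattice vectors `x` in the cone with `K w - x` in the cone.
-/

set_option autoImplicit false
set_option linter.unusedVariables false
set_option linter.unusedSectionVars false

namespace Pool.Agent.H895.ND

open Pool.Agent.Helper43K9.NH (phi dot Inn phi_spec phi_eq phi_smul dot_add dot_smul)
open Pool.Agent.TH165.ACC (pr Cn pr_add pr_zero pr_neg pr_sub pr_smul pr_smul_right Coord coord_pr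
  DualVec exists_simplex)
open Pool.Agent.Helper58K9.CI (VJ RadoC ev rv ev_rv pr_add_right pr_sum_right dot_sum exists_min
  rank_min)
open Module

variable {n N r s : ℕ}

/-- **Well quasi-order**, with additional natural numbers. -/
theorem exists_pair' {κ α : Type} [Finite κ] [Finite α] (U : κ → Finset (Fin n → ℤ))
    (hU : ∀ x, (U x).Nonempty) (u : ℕ → Fin n → ℤ) (f : ℕ → α → ℕ) :
    ∃ k l, k < l ∧ (∀ x, phi (U x) (u l) = phi (U x) (u k) + phi (U x) (u l - u k)) ∧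
      f k ≤ f l := by
  classical
  let ι : Type := (Σ x : κ, {m // m ∈ U x}) ⊕ α
  let F : ℕ → ι → ℕ := fun k => Sum.elim
    (fun i => (pr i.2.1 (u k) - phi (U i.1) (u k)).toNat) (f k)
  have hf : ∀ k (i : Σ x : κ, {m // m ∈ U x}), (F k (Sum.inl i) : ℤ) =
      pr i.2.1 (u k) - phi (U i.1) (u k) := by
    intro k i
    have := (phi_spec (hU i.1) (u k)).2 i.2.1 i.2.2
    simp only [F, Sum.elim_inl]
    omega
  obtain ⟨k, l, hkl, hle⟩ := (wellQuasiOrdered_le (α := ι → ℕ)) F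
  refine ⟨k, l, hkl, fun x => ?_, fun a => hle (Sum.inr a)⟩
  obtain ⟨⟨m, hm, h1⟩, h2⟩ := phi_spec (hU x) (u l)
  have hml : (F l (Sum.inl ⟨x, m, hm⟩) : ℤ) = 0 := by rw [hf]; simp [h1]
  have hmk : (F k (Sum.inl ⟨x, m, hm⟩) : ℤ) = 0 := by
    have h9 : F k (Sum.inl ⟨x, m, hm⟩) ≤ F l (Sum.inl ⟨x, m, hm⟩) := hle (Sum.inl ⟨x, m, hm⟩)
    omega
  rw [hf] at hmk
  simp only at hmk
  have h3 : phi (U x) (u l - u k) = pr m (u l - u k) := by
    apply phi_eq ⟨m, hm, rfl⟩
    intro m' hm'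
    have h4 : ((F k (Sum.inl ⟨x, m', hm'⟩) : ℕ) : ℤ) ≤ F l (Sum.inl ⟨x, m', hm'⟩) := by
      exact_mod_cast hle (Sum.inl ⟨x, m', hm'⟩)
    rw [hf, hf] at h4
    simp only at h4
    have h5 : ∀ q : Fin n → ℤ, pr q (u l - u k) = pr q (u l) - pr q (u k) := by
      intro q
      have := pr_add_right q (u l - u k) (u k)
      rw [sub_add_cancel] at this
      omega
    rw [h5, h5]
    omega
  have h5 : pr m (u l - u k) = pr m (u l) - pr m (u k) := by
    have := pr_add_right m (u l - u k) (u k)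
    rw [sub_add_cancel] at this
    omega
  rw [h3, h5]
  omega

/-- a positive multiple of a lattice vector in the cone is a sum of the generators -/
theorem natrep {E : Fin N → Fin n → ℤ} {x : Fin n → ℤ} (hx : InC E x) :
    ∃ (D : ℕ) (c : Fin N → ℕ), 0 < D ∧ ∀ k, ∑ i, (c i : ℝ) * (E i k : ℝ) = (D : ℝ) * (x k : ℝ) := by
  classical
  obtain ⟨q, a, w, hw, hco, D, hD, hQ⟩ := exists_simplex hx
  choose Q hQ using hQ
  have h1 : ∀ i, ((pr (Q i) x : ℤ) : ℝ) = w i * D := by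
    intro i
    rw [coord_pr (A := fun i => E (a i)) hco]
    simp only [hQ]
    rw [Finset.sum_eq_single i]
    · simp
    · intro j _ hj
      rw [if_neg hj]
      simp
    · intro h; exact absurd (Finset.mem_univ _) h
  have hD' : (0 : ℝ) < D := by exact_mod_cast hD
  have h2 : ∀ i, 0 ≤ pr (Q i) x := by
    intro i
    have h3 : (0 : ℝ) ≤ ((pr (Q i) x : ℤ) : ℝ) := by
      rw [h1]
      exact mul_nonneg (hw i).le hD'.le
    exact_mod_cast h3
  have h3 : ∀ i, (((pr (Q i) x).toNat : ℕ) : ℝ) = w i * D := by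
    intro i
    rw [← h1 i]
    have := Int.toNat_of_nonneg (h2 i)
    exact_mod_cast this
  refine ⟨D.toNat, fun e => ∑ i, if a i = e then (pr (Q i) x).toNat else 0, by omega, fun k => ?_⟩
  have h4 : ((D.toNat : ℕ) : ℝ) = (D : ℝ) := by
    have := Int.toNat_of_nonneg hD.le
    exact_mod_cast this
  rw [h4, ← hco k]
  push_cast
  simp only [Finset.sum_mul, ite_mul, zero_mul]
  rw [Finset.sum_comm, Finset.mul_sum]
  refine Finset.sum_congr rfl fun i _ => ?_
  rw [Finset.sum_ite_eq Finset.univ (a i)]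
  simp only [Finset.mem_univ, if_true]
  rw [h3]
  ring

section

variable {ψ : Fin n → ℝ} {S : Fin r → Finset (Fin n → ℤ)} {T : Fin s → Finset (Fin n → ℤ)}
  {b : Fin s → ℝ} {E : Fin N → Fin n → ℤ}

theorem exists_max_aux (hS : ∀ j, (S j).Nonempty) (hT : ∀ k, (T k).Nonempty)
    {Q : Fin n → ℤ} (hQ : ∀ i, 0 < pr Q (E i)) {w : Fin n → ℤ} (hw : InC E w) :
    ∃ (z : Fin n → ℤ) (K : ℕ), 0 < K ∧ InC E z ∧ InC E ((K : ℤ) • w - z) ∧
      ∀ (c c' : Fin N → ℕ) (M : ℕ) (x : Fin n → ℤ), 0 < M →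
        (∀ k, ∑ i, (c i : ℤ) * E i k = x k) →
        (∀ k, ∑ i, ((c i : ℤ) + c' i) * E i k = (M : ℤ) * w k) →
        -la ψ S T b x * K ≤ -la ψ S T b z * M := by
  classical
  let Z : Type := {t : (Fin N → ℕ) × (Fin N → ℕ) × ℕ // 0 < t.2.2 ∧
    ∀ k, ∑ i, ((t.1 i : ℤ) + t.2.1 i) * E i k = (t.2.2 : ℤ) * w k}
  let X : Z → Fin n → ℤ := fun t k => ∑ i, (t.1.1 i : ℤ) * E i k
  let K : Z → ℕ := fun t => t.1.2.2
  have hK : ∀ t, (0 : ℝ) < K t := fun t => by exact_mod_cast t.2.1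
  let ratio : Z → ℝ := fun t => -la ψ S T b (X t) / K t
  obtain ⟨t0⟩ : Nonempty Z := by
    obtain ⟨D, c, hD, hc⟩ := natrep hw
    refine ⟨⟨(0, c, D), hD, fun k => ?_⟩⟩
    have := hc k
    simp only [Pi.zero_apply, Nat.cast_zero, zero_add]
    exact_mod_cast this
  suffices h : ∃ t, ∀ t', ratio t' ≤ ratio t by
    obtain ⟨t, ht⟩ := h
    have hX : ∀ k, ∑ i, ((t.1.1 i : ℕ) : ℝ) * (E i k : ℝ) = (X t k : ℝ) := by
      intro k
      simp only [X]
      push_cast
      rfl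
    refine ⟨X t, K t, t.2.1, inC_comb hX (fun i => Nat.cast_nonneg _) fun i _ => inC_edge E i,
      inC_comb (c := fun i => ((t.1.2.1 i : ℕ) : ℝ)) (ρ := E) (fun k => ?_)
        (fun i => Nat.cast_nonneg _) fun i _ => inC_edge E i, fun c c' M x hM hx hM' => ?_⟩
    · have h1 := t.2.2 k
      simp only [add_mul, Finset.sum_add_distrib] at h1
      have h2 : ∑ i, ((t.1.2.1 i : ℕ) : ℤ) * E i k = (((K t : ℕ) : ℤ) • w - X t) k := by
        simp only [Pi.sub_apply, Pi.smul_apply, smul_eq_mul, X, K]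
        omega
      exact_mod_cast h2
    · let t' : Z := ⟨(c, c', M), hM, hM'⟩
      have h1 := ht t'
      have h2 : X t' = x := funext fun k => hx k
      simp only [ratio, h2] at h1
      rwa [div_le_div_iff₀ (hK _) (hK _)] at h1
  by_contra hcon
  push Not at hcon
  have hnx : ∀ t, ∃ t', ratio t < ratio t' ∧ ∀ t'', ratio t < ratio t'' → K t' ≤ K t'' := by
    intro t
    have hex : ∃ m, ∃ t', ratio t < ratio t' ∧ K t' = m := by
      obtain ⟨t', ht'⟩ := hcon t
      exact ⟨_, t', ht', rfl⟩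
    obtain ⟨t', h1, h2⟩ := Nat.find_spec hex
    refine ⟨t', h1, fun t'' h3 => ?_⟩
    rw [h2]
    exact Nat.find_min' hex ⟨t'', h3, rfl⟩
  choose nx hn1 hn2 using hnx
  let seq : ℕ → Z := fun k => nx^[k] t0
  have hseq : ∀ k, seq (k + 1) = nx (seq k) := fun k => Function.iterate_succ_apply' _ _ _
  have hmono : StrictMono fun k => ratio (seq k) := strictMono_nat_of_lt_succ fun k => by
    rw [hseq]
    exact hn1 _
  obtain ⟨k, l, hkl, hadd, hle⟩ := exists_pair' (Sum.elim S T)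
    (by rintro (x | x); exacts [hS x, hT x]) (fun k => X (seq k))
    (fun k => (Sum.elim (seq k).1.1 (Sum.elim (seq k).1.2.1 fun _ => K (seq k)) :
      (Fin N ⊕ Fin N ⊕ Unit) → ℕ))
  have hc1 : ∀ i, (seq k).1.1 i ≤ (seq l).1.1 i := fun i => hle (Sum.inl i)
  have hc2 : ∀ i, (seq k).1.2.1 i ≤ (seq l).1.2.1 i := fun i => hle (Sum.inr (Sum.inl i))
  have hc3 : K (seq k) ≤ K (seq l) := hle (Sum.inr (Sum.inr ()))
  have hek := (seq k).2.2
  have hel := (seq l).2.2
  have hsum : ∀ q, ∑ i, ((((seq l).1.1 i - (seq k).1.1 i : ℕ) : ℤ) +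
      ((seq l).1.2.1 i - (seq k).1.2.1 i : ℕ)) * E i q =
      ((K (seq l) - K (seq k) : ℕ) : ℤ) * w q := by
    intro q
    have h1 : ∀ i ∈ Finset.univ, ((((seq l).1.1 i - (seq k).1.1 i : ℕ) : ℤ) +
      ((seq l).1.2.1 i - (seq k).1.2.1 i : ℕ)) * E i q =
      (((seq l).1.1 i : ℤ) + (seq l).1.2.1 i) * E i q -
        (((seq k).1.1 i : ℤ) + (seq k).1.2.1 i) * E i q := by
      intro i _
      rw [Nat.cast_sub (hc1 i), Nat.cast_sub (hc2 i)]
      ring
    rw [Finset.sum_congr rfl h1, Finset.sum_sub_distrib, hek, hel, Nat.cast_sub hc3]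
    simp only [K]
    ring
  have hpos : 0 < K (seq l) - K (seq k) := by
    by_contra h0
    have h0' : K (seq l) - K (seq k) = 0 := by omega
    have h1 : ∀ q, ∑ i, ((((seq l).1.1 i - (seq k).1.1 i : ℕ) : ℤ) +
      ((seq l).1.2.1 i - (seq k).1.2.1 i : ℕ)) * E i q = 0 := by
      intro q
      rw [hsum q, h0']
      simp
    have h2 : ∑ i, ((((seq l).1.1 i - (seq k).1.1 i : ℕ) : ℤ) +
      ((seq l).1.2.1 i - (seq k).1.2.1 i : ℕ)) * pr Q (E i) = 0 := by
      simp only [pr, Finset.mul_sum]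
      rw [Finset.sum_comm]
      refine Finset.sum_eq_zero fun q _ => ?_
      have h3 := h1 q
      calc _ = Q q * ∑ i, ((((seq l).1.1 i - (seq k).1.1 i : ℕ) : ℤ) +
          ((seq l).1.2.1 i - (seq k).1.2.1 i : ℕ)) * E i q := by
            rw [Finset.mul_sum]
            exact Finset.sum_congr rfl fun i _ => by ring
        _ = 0 := by rw [h3, mul_zero]
    have h3 := (Finset.sum_eq_zero_iff_of_nonneg (fun i _ => mul_nonneg (by positivity)
      (hQ i).le)).1 h2
    have h4 : ∀ i, (seq l).1.1 i = (seq k).1.1 i ∧ (seq l).1.2.1 i = (seq k).1.2.1 i := by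
      intro i
      have h5 := (mul_eq_zero.1 (h3 i (Finset.mem_univ _))).resolve_right (hQ i).ne'
      have h6 := hc1 i
      have h7 := hc2 i
      constructor <;> omega
    have h5 : seq l = seq k := by
      apply Subtype.ext
      refine Prod.ext (funext fun i => (h4 i).1) (Prod.ext (funext fun i => (h4 i).2) ?_)
      change K (seq l) = K (seq k)
      omega
    have h6 := hmono hkl
    simp only [h5] at h6
    exact lt_irrefl _ h6
  let δ : Z := ⟨(fun i => (seq l).1.1 i - (seq k).1.1 i, fun i => (seq l).1.2.1 i - (seq k).1.2.1 i,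
    K (seq l) - K (seq k)), hpos, hsum⟩
  have hXδ : X δ = X (seq l) - X (seq k) := by
    funext q
    simp only [X, Pi.sub_apply, ← Finset.sum_sub_distrib]
    refine Finset.sum_congr rfl fun i _ => ?_
    simp only [δ]
    rw [Nat.cast_sub (hc1 i)]
    ring
  have hKδ : (K δ : ℝ) = K (seq l) - K (seq k) := by
    change ((K (seq l) - K (seq k) : ℕ) : ℝ) = _
    rw [Nat.cast_sub hc3]
  have hlaδ : la ψ S T b (X (seq l)) = la ψ S T b (X (seq k)) + la ψ S T b (X δ) := by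
    rw [hXδ]
    have h1 : ∀ j, (phi (S j) (X (seq l)) : ℝ) = phi (S j) (X (seq k)) +
        phi (S j) (X (seq l) - X (seq k)) := fun j => by exact_mod_cast hadd (Sum.inl j)
    have h2 : ∀ j, (phi (T j) (X (seq l)) : ℝ) = phi (T j) (X (seq k)) +
        phi (T j) (X (seq l) - X (seq k)) := fun j => by exact_mod_cast hadd (Sum.inr j)
    have h3 : dot ψ (X (seq l)) = dot ψ (X (seq k)) + dot ψ (X (seq l) - X (seq k)) := by
      rw [← dot_add]
      congr 1
      abel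
    unfold la
    simp only [h1, h2, h3, mul_add, Finset.sum_add_distrib]
    ring
  have h1 : ratio (seq k) < ratio (seq l) := hmono hkl
  have h2 : ratio (seq l) < ratio δ := by
    simp only [ratio] at h1 ⊢
    rw [div_lt_div_iff₀ (hK _) (hK _)] at h1 ⊢
    rw [hKδ]
    rw [hlaδ] at h1 ⊢
    nlinarith
  obtain ⟨l', rfl⟩ : ∃ l', l = l' + 1 := ⟨l - 1, by omega⟩
  have h3 : ratio (seq l') < ratio δ := (hmono (Nat.lt_succ_self l')).trans h2
  have h4 := hn2 (seq l') δ h3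
  rw [← hseq] at h4
  have h5 : 0 < K (seq k) := (seq k).2.1
  have h6 : K δ = K (seq (l' + 1)) - K (seq k) := rfl
  omega

/-- **The maximum.** -/
theorem exists_max (hS : ∀ j, (S j).Nonempty) (hT : ∀ k, (T k).Nonempty)
    {Q : Fin n → ℤ} (hQ : ∀ i, 0 < pr Q (E i)) {w : Fin n → ℤ} (hw : InC E w) :
    ∃ (z : Fin n → ℤ) (K : ℕ), 0 < K ∧ InC E z ∧ InC E ((K : ℤ) • w - z) ∧
      ∀ (M : ℕ) (x : Fin n → ℤ), 0 < M → InC E x → InC E ((M : ℤ) • w - x) →
        -la ψ S T b x * K ≤ -la ψ S T b z * M := by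
  obtain ⟨z, K, hK, hz, hz', hmax⟩ := exists_max_aux (ψ := ψ) (b := b) hS hT hQ hw
  refine ⟨z, K, hK, hz, hz', fun M x hM hx hx' => ?_⟩
  obtain ⟨D, c, hD, hc⟩ := natrep hx
  obtain ⟨D', c', hD', hc'⟩ := natrep hx'
  have h1 := hmax (fun i => D' * c i) (fun i => D * c' i) (D * D' * M) (((D' * D : ℕ) : ℤ) • x)
    (by positivity) (fun k => by
      have h2 : ∀ i ∈ Finset.univ, ((D' * c i : ℕ) : ℝ) * (E i k : ℝ) =
          (D' : ℝ) * ((c i : ℝ) * (E i k : ℝ)) := fun i _ => by push_cast; ring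
      have h3 : (∑ i, ((D' * c i : ℕ) : ℝ) * (E i k : ℝ) : ℝ) = ((D' * D : ℕ) : ℝ) * (x k : ℝ) := by
        rw [Finset.sum_congr rfl h2, ← Finset.mul_sum, hc k]
        push_cast
        ring
      have h4 : ((∑ i, ((D' * c i : ℕ) : ℤ) * E i k : ℤ) : ℝ) =
          (((((D' * D : ℕ) : ℤ) • x) k : ℤ) : ℝ) := by
        rw [Pi.smul_apply, smul_eq_mul]
        push_cast at h3 ⊢
        exact h3
      exact_mod_cast h4) (fun k => by
      have h2 : ∀ i ∈ Finset.univ, (((D' * c i : ℕ) : ℝ) + ((D * c' i : ℕ) : ℝ)) * (E i k : ℝ) =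
          (D' : ℝ) * ((c i : ℝ) * (E i k : ℝ)) + (D : ℝ) * ((c' i : ℝ) * (E i k : ℝ)) :=
        fun i _ => by push_cast; ring
      have h3 : (∑ i, (((D' * c i : ℕ) : ℝ) + ((D * c' i : ℕ) : ℝ)) * (E i k : ℝ) : ℝ) =
          ((D * D' * M : ℕ) : ℝ) * (w k : ℝ) := by
        rw [Finset.sum_congr rfl h2, Finset.sum_add_distrib, ← Finset.mul_sum, ← Finset.mul_sum,
          hc k, hc' k, Pi.sub_apply, Pi.smul_apply, smul_eq_mul]
        push_cast
        ring
      exact_mod_cast h3)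
  rw [la_smul hS hT (by positivity)] at h1
  have h2 : (0 : ℝ) < (D : ℝ) * D' := by positivity
  push_cast at h1
  have h3 : (D : ℝ) * D' * (-la ψ S T b x * K) ≤ (D : ℝ) * D' * (-la ψ S T b z * M) := by
    linarith
  exact le_of_mul_le_mul_left h3 h2

end

end Pool.Agent.H895.ND
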