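import Pool.Agent.H895.ND.Comb

/-!
# The step of the combinatorial inversion of adjunction, in a simplicial cone

The proof is the one of `Pool.Agent.Helper58K9.CI.step`, with another choice of the first ray: there
is a vector `w` in the relative interior of the cone which satisfies the condition of Rado.
-/

set_option autoImplicit false
set_option linter.unusedVariables false
set_option linter.unusedSectionVars false

namespace Pool.Agent.H895.ND

open Pool.Agent.Helper43K9.NH (phi dot Inn phi_spec phi_eq phi_smul dot_add dot_smul)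
open Pool.Agent.TH165.ACC (pr Cn pr_add pr_zero pr_neg pr_sub pr_smul pr_smul_right Coord coord_pr)
open Pool.Agent.Helper58K9.CI (VJ RadoC ev rv ev_rv pr_add_right pr_sum_right dot_sum exists_min
  rank_min)
open Module

variable {n N r s : ℕ}

theorem step (ρ : Fin N → Fin n → ℤ) (S : Fin r → Finset (Fin n → ℤ))
    (hS : ∀ j, (S j).Nonempty) {w u : Fin n → ℤ} {cw cu : Fin N → ℝ} (hcw : ∀ i, 0 < cw i)
    (hw : Coord ρ cw w) (hcu : ∀ i, 0 < cu i) (hu : Coord ρ cu u) (hRw : RadoC S w)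
    (hR : ¬ RadoC S u) :
    ∃ I : Finset (Fin N), I.Nonempty ∧
      ∑ j, (phi (S j) u : ℝ) + ∑ i ∈ I, ∑ j, (phi (S j) (ρ i) : ℝ) + I.card ≤
        ∑ j, (phi (S j) (u + ∑ i ∈ I, ρ i) : ℝ) := by
  classical
  -- the minimal `J`
  obtain ⟨J, hJ, hJmin⟩ : ∃ J : Finset (Fin r), finrank ℝ (VJ S u J) < J.card ∧
      ∀ J' ⊂ J, J'.card ≤ finrank ℝ (VJ S u J') := by
    unfold RadoC at hR
    push Not at hR
    have hex : ∃ k : ℕ, ∃ J : Finset (Fin r), finrank ℝ (VJ S u J) < J.card ∧ J.card = k := by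
      obtain ⟨J, hJ⟩ := hR
      exact ⟨_, J, hJ, rfl⟩
    obtain ⟨J, hJ, hk⟩ := Nat.find_spec hex
    refine ⟨J, hJ, fun J' hJ' => ?_⟩
    by_contra hcon
    push Not at hcon
    have := Nat.find_min hex (m := J'.card) (by
      have := Finset.card_lt_card hJ'
      omega)
    exact this ⟨J', hcon, rfl⟩
  -- the first ray
  obtain ⟨j0, hj0, m0, hm0, hm0w, i0, hi0⟩ : ∃ j0 ∈ J, ∃ m0 ∈ S j0, pr m0 u = phi (S j0) u ∧
      ∃ i0, phi (S j0) (ρ i0) < pr m0 (ρ i0) := by
    by_contra hcon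
    push Not at hcon
    have hmin : ∀ j ∈ J, ∀ m ∈ S j, pr m u = phi (S j) u → ∀ i, pr m (ρ i) = phi (S j) (ρ i) :=
      fun j hj m hm h i => le_antisymm (hcon j hj m hm h i) ((phi_spec (hS j) (ρ i)).2 m hm)
    have hle : VJ S w J ≤ VJ S u J := by
      refine Submodule.span_mono ?_
      rintro x ⟨j, hj, m, hm, m', hm', h1, h2, rfl⟩
      obtain ⟨⟨m1, hm1, hm1u⟩, -⟩ := phi_spec (hS j) u
      have h3 := hmin j hj m1 hm1 hm1u
      -- a minimal monomial for `w` is minimal for `u`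
      have key : ∀ m ∈ S j, pr m w = phi (S j) w → pr m u = phi (S j) u := by
        intro m hm h4
        have h5 : (pr m w : ℝ) ≤ (pr m1 w : ℝ) := by
          exact_mod_cast h4.le.trans ((phi_spec (hS j) w).2 m1 hm1)
        rw [coord_pr hw, coord_pr hw] at h5
        have h6 : ∀ i ∈ Finset.univ, cw i * (pr m1 (ρ i) : ℝ) ≤ cw i * (pr m (ρ i) : ℝ) := by
          intro i _
          refine mul_le_mul_of_nonneg_left ?_ (hcw i).le
          rw [h3 i]
          exact_mod_cast (phi_spec (hS j) (ρ i)).2 m hm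
        have h7 := (Finset.sum_eq_sum_iff_of_le h6).1 (le_antisymm (Finset.sum_le_sum h6) h5)
        have h8 : ∀ i, (pr m1 (ρ i) : ℝ) = (pr m (ρ i) : ℝ) := fun i =>
          mul_left_cancel₀ (hcw i).ne' (h7 i (Finset.mem_univ _))
        have h9 : (pr m u : ℝ) = (pr m1 u : ℝ) := by
          rw [coord_pr hu, coord_pr hu]
          exact Finset.sum_congr rfl fun i _ => by rw [h8 i]
        rw [← hm1u]
        exact_mod_cast h9
      exact ⟨j, hj, m, hm, m', hm', key m hm h1, key m' hm' h2, rfl⟩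
    have h1 := hRw J
    have h2 := Submodule.finrank_mono hle
    omega
  -- the space `V`
  let V := VJ S u J
  let e : Fin N → V →ₗ[ℝ] ℝ := fun i => (ev (rv (ρ i))).comp V.subtype
  have hwV : ∀ v ∈ V, ev (rv u) v = 0 := by
    intro v hv
    have hle : V ≤ LinearMap.ker (ev (rv u)) := by
      refine Submodule.span_le.2 ?_
      rintro x ⟨j, hj, m, hm, m', hm', h1, h2, rfl⟩
      rw [SetLike.mem_coe, LinearMap.mem_ker, ev_rv, pr_sub, h1, h2]
      simp
    exact hle hv
  obtain ⟨c, hc0, hc1, hc2, hc3⟩ := exists_min e i0 (by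
    refine ⟨cu, fun i => (hcu i).le, hcu i0, fun v => ?_⟩
    have h3 : ∑ i, cu i * e i v = ev (rv u) v := by
      simp only [e, LinearMap.comp_apply, Submodule.subtype_apply, ev, rv, LinearMap.coe_mk,
        AddHom.coe_mk, Finset.mul_sum]
      rw [Finset.sum_comm]
      refine Finset.sum_congr rfl fun k _ => ?_
      have := hu k
      calc ∑ i, cu i * ((ρ i k : ℝ) * v.1 k) = (∑ i, cu i * (ρ i k : ℝ)) * v.1 k := by
            rw [Finset.sum_mul]
            exact Finset.sum_congr rfl fun i _ => by ring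
        _ = _ := by rw [this]
    rw [h3, hwV v v.2])
  let I : Finset (Fin N) := Finset.univ.filter fun i => c i ≠ 0
  have hI : ∀ i, i ∈ I ↔ c i ≠ 0 := fun i => by simp [I]
  -- the numbers `λ_j`
  let la : Fin r → (Fin n → ℤ) → ℝ := fun j m => ∑ i, c i * ((pr m (ρ i) : ℝ) - phi (S j) (ρ i))
  have hgap : ∀ j, ∀ m ∈ S j, ∀ i, (0 : ℝ) ≤ (pr m (ρ i) : ℝ) - phi (S j) (ρ i) := by
    intro j m hm i
    have := (phi_spec (hS j) (ρ i)).2 m hm
    have h2 : (phi (S j) (ρ i) : ℝ) ≤ (pr m (ρ i) : ℝ) := by exact_mod_cast this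
    linarith
  have hla0 : ∀ j, ∀ m ∈ S j, 0 ≤ la j m := fun j m hm =>
    Finset.sum_nonneg fun i _ => mul_nonneg (hc0 i) (hgap j m hm i)
  have hlaeq : ∀ j ∈ J, ∀ m ∈ S j, ∀ m' ∈ S j, pr m u = phi (S j) u → pr m' u = phi (S j) u →
      la j m = la j m' := by
    intro j hj m hm m' hm' h1 h2
    have hv : rv (m - m') ∈ V := Submodule.subset_span ⟨j, hj, m, hm, m', hm', h1, h2, rfl⟩
    have h3 := hc2 ⟨rv (m - m'), hv⟩
    have h4 : ∀ i, e i ⟨rv (m - m'), hv⟩ = (pr m (ρ i) : ℝ) - pr m' (ρ i) := by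
      intro i
      simp only [e, LinearMap.comp_apply, Submodule.subtype_apply]
      rw [ev_rv, pr_sub]
      push_cast
      ring
    simp only [h4] at h3
    have h5 : la j m - la j m' = 0 := by
      simp only [la]
      rw [← Finset.sum_sub_distrib, ← h3]
      exact Finset.sum_congr rfl fun i _ => by ring
    linarith
  -- the set `J0`
  let J0 : Finset (Fin r) := J.filter fun j => ∀ m ∈ S j, pr m u = phi (S j) u → la j m = 0
  have hJ0 : J0 ⊂ J := by
    rw [Finset.ssubset_iff_of_subset (Finset.filter_subset _ _)]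
    refine ⟨j0, hj0, fun h => ?_⟩
    have h1 := (Finset.mem_filter.1 h).2 m0 hm0 hm0w
    have h2 : 0 < la j0 m0 := by
      refine Finset.sum_pos' (fun i _ => mul_nonneg (hc0 i) (hgap j0 m0 hm0 i))
        ⟨i0, Finset.mem_univ _, mul_pos hc1 ?_⟩
      have : (phi (S j0) (ρ i0) : ℝ) < (pr m0 (ρ i0) : ℝ) := by exact_mod_cast hi0
      linarith
    linarith
  have hzero : ∀ j ∈ J0, ∀ m ∈ S j, pr m u = phi (S j) u → ∀ i ∈ I,
      pr m (ρ i) = phi (S j) (ρ i) := by
    intro j hj m hm h1 i hi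
    have h2 := (Finset.mem_filter.1 hj).2 m hm h1
    have h3 := (Finset.sum_eq_zero_iff_of_nonneg (fun i _ =>
      mul_nonneg (hc0 i) (hgap j m hm i))).1 h2 i (Finset.mem_univ _)
    rcases mul_eq_zero.1 h3 with h4 | h4
    · exact absurd h4 ((hI i).1 hi)
    · have : (pr m (ρ i) : ℝ) = phi (S j) (ρ i) := by linarith
      exact_mod_cast this
  -- the dimension
  let K : Submodule ℝ V := (VJ S u J0).comap V.subtype
  have hVle : VJ S u J0 ≤ V := by
    refine Submodule.span_mono ?_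
    rintro x ⟨j, hj, h⟩
    exact ⟨j, Finset.filter_subset _ _ hj, h⟩
  have hKf : finrank ℝ K = finrank ℝ (VJ S u J0) := by
    exact (Submodule.comapSubtypeEquivOfLe hVle).finrank_eq
  have hK : ∀ v ∈ K, ∀ i ∈ I, e i v = 0 := by
    intro v hv i hi
    have hle : VJ S u J0 ≤ LinearMap.ker (ev (rv (ρ i))) := by
      refine Submodule.span_le.2 ?_
      rintro x ⟨j, hj, m, hm, m', hm', h1, h2, rfl⟩
      rw [SetLike.mem_coe, LinearMap.mem_ker, ev_rv, pr_sub, hzero j hj m hm h1 i hi,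
        hzero j hj m' hm' h2 i hi]
      simp
    exact hle hv
  obtain ⟨-, hdim⟩ := rank_min e c I hI hc3 K hK ⊤
  rw [hKf] at hdim
  have hJ0c := hJmin J0 hJ0
  have hcard : I.card ≤ (J \ J0).card := by
    have h1 : (J \ J0).card + J0.card = J.card :=
      Finset.card_sdiff_add_card_eq_card (Finset.filter_subset _ _ : J0 ⊆ J)
    have h2 : finrank ℝ V = finrank ℝ (VJ S u J) := rfl
    omega
  have hIne : I.Nonempty := ⟨i0, (hI i0).2 hc1.ne'⟩
  refine ⟨I, hIne, ?_⟩
  -- growth of `φ_j`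
  have hphi : ∀ j, (phi (S j) u : ℝ) + ∑ i ∈ I, (phi (S j) (ρ i) : ℝ) +
      (if j ∈ J \ J0 then 1 else 0) ≤ (phi (S j) (u + ∑ i ∈ I, ρ i) : ℝ) := by
    intro j
    obtain ⟨⟨m, hm, hmw⟩, -⟩ := phi_spec (hS j) (u + ∑ i ∈ I, ρ i)
    rw [← hmw, pr_add_right, pr_sum_right]
    have h1 := (phi_spec (hS j) u).2 m hm
    have h2 : ∑ i ∈ I, phi (S j) (ρ i) ≤ ∑ i ∈ I, pr m (ρ i) :=
      Finset.sum_le_sum fun i _ => (phi_spec (hS j) (ρ i)).2 m hm
    have h3 : phi (S j) u + ∑ i ∈ I, phi (S j) (ρ i) + (if j ∈ J \ J0 then 1 else 0) ≤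
        pr m u + ∑ i ∈ I, pr m (ρ i) := by
      split_ifs with hj
      · by_cases h4 : pr m u = phi (S j) u
        · obtain ⟨hjJ, hjJ0⟩ := Finset.mem_sdiff.1 hj
          -- `λ_j > 0`
          have h5 : la j m ≠ 0 := by
            intro h6
            apply hjJ0
            refine Finset.mem_filter.2 ⟨hjJ, fun m' hm' h7 => ?_⟩
            rw [hlaeq j hjJ m' hm' m hm h7 h4, h6]
          have h6 : 0 < la j m := lt_of_le_of_ne (hla0 j m hm) (Ne.symm h5)
          obtain ⟨i, -, hi⟩ := Finset.exists_lt_of_sum_lt (s := Finset.univ) (f := fun _ => (0 : ℝ))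
            (g := fun i => c i * ((pr m (ρ i) : ℝ) - phi (S j) (ρ i))) (by simpa using h6)
          have hci : c i ≠ 0 := by
            intro h7
            rw [h7] at hi
            simp at hi
          have h8 : phi (S j) (ρ i) < pr m (ρ i) := by
            refine lt_of_le_of_ne ((phi_spec (hS j) (ρ i)).2 m hm) fun h9 => ?_
            rw [h9] at hi
            simp at hi
          have h9 : ∑ i ∈ I, phi (S j) (ρ i) < ∑ i ∈ I, pr m (ρ i) :=
            Finset.sum_lt_sum (fun i _ => (phi_spec (hS j) (ρ i)).2 m hm)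
              ⟨i, (hI i).2 hci, h8⟩
          omega
        · omega
      · omega
    have h4 : ((phi (S j) u + ∑ i ∈ I, phi (S j) (ρ i) + (if j ∈ J \ J0 then 1 else 0) : ℤ) : ℝ)
        ≤ ((pr m u + ∑ i ∈ I, pr m (ρ i) : ℤ) : ℝ) := by exact_mod_cast h3
    push_cast at h4 ⊢
    exact h4
  have hsum := Finset.sum_le_sum fun j (_ : j ∈ Finset.univ) => hphi j
  rw [Finset.sum_add_distrib, Finset.sum_add_distrib] at hsum
  have h1 : ∑ j, (if j ∈ J \ J0 then (1 : ℝ) else 0) = ((J \ J0).card : ℝ) := by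
    rw [Finset.sum_ite_mem, Finset.univ_inter]
    simp
  rw [h1, Finset.sum_comm] at hsum
  have h3 : (I.card : ℝ) ≤ ((J \ J0).card : ℝ) := by exact_mod_cast hcard
  linarith

end Pool.Agent.H895.ND
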